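import Pool.Agent.LibKloosterman.Two
import Mathlib

/-!
# LibPA15/A: the Mellin transform of the Kloosterman sum `t ↦ K(α t)` (Gauss sums)
-/

set_option autoImplicit false

namespace PA15

open Finset

variable {d : ℕ} [Fact d.Prime]

/-- Gauss sum over the units -/
noncomputable def G (φ : MulChar (ZMod d) ℂ) : ℂ :=
  ∑ u : (ZMod d)ˣ, φ (u : ZMod d) * ZMod.stdAddChar (u : ZMod d)

lemma G_eq (φ : MulChar (ZMod d) ℂ) : gaussSum φ (ZMod.stdAddChar (N := d)) = G φ := by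
  unfold gaussSum G
  rw [Kloo.sum_units_eq]
  simp [MulChar.map_zero]

lemma conj_G (φ : MulChar (ZMod d) ℂ) :
    (starRingEnd ℂ) (gaussSum φ (ZMod.stdAddChar (N := d))) =
      gaussSum φ⁻¹ (ZMod.stdAddChar (N := d))⁻¹ := by
  unfold gaussSum
  rw [map_sum]
  refine Finset.sum_congr rfl fun u _ => ?_
  rw [map_mul]
  congr 1
  · rw [← MulChar.star_apply' φ u]; rfl
  · rw [AddChar.inv_apply, AddChar.map_neg_eq_conj]

lemma norm_G (φ : MulChar (ZMod d) ℂ) : ‖G φ‖ ^ 2 ≤ d := by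
  have hd : (1 : ℝ) ≤ d := by
    have := (Fact.out : d.Prime).one_lt
    exact_mod_cast this.le
  by_cases h : φ = 1
  · have h1 : G φ = -1 := by
      subst h
      unfold G
      have h2 : ∑ x : ZMod d, (ZMod.stdAddChar (N := d) x : ℂ) = 0 := by
        have := Kloo.sum_psi_zero (d := d) 1 one_ne_zero
        simpa using this
      rw [Kloo.sum_units_eq] at h2
      rw [AddChar.map_zero_eq_one] at h2
      have h3 : ∑ u : (ZMod d)ˣ, (1 : MulChar (ZMod d) ℂ) (u : ZMod d) *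
          ZMod.stdAddChar (u : ZMod d) = ∑ u : (ZMod d)ˣ, (ZMod.stdAddChar (u : ZMod d) : ℂ) := by
        refine Finset.sum_congr rfl fun u _ => ?_
        rw [MulChar.one_apply_coe, one_mul]
      rw [h3]
      linear_combination h2
    rw [h1]
    simpa using hd
  · have h1 := gaussSum_mul_gaussSum_eq_card h (ZMod.isPrimitive_stdAddChar d)
    rw [← conj_G, ZMod.card, G_eq, Complex.mul_conj, Complex.normSq_eq_norm_sq] at h1
    have h2 : ‖G φ‖ ^ 2 = (d : ℝ) := by exact_mod_cast h1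
    exact h2.le

/-- the Mellin transform of `t ↦ K(α t)` -/
theorem mellin (φ : MulChar (ZMod d) ℂ) (α : (ZMod d)ˣ) :
    ∑ t : (ZMod d)ˣ, φ (t : ZMod d) * Kloo.K d ((α : ZMod d) * (t : ZMod d)) =
      φ ((α⁻¹ : (ZMod d)ˣ) : ZMod d) * G φ ^ 2 := by
  have e1 : ∀ t : (ZMod d)ˣ, φ (t : ZMod d) * Kloo.K d ((α : ZMod d) * (t : ZMod d)) =
      ∑ u : (ZMod d)ˣ, φ (t : ZMod d) *
        (ZMod.stdAddChar ((α : ZMod d) * (t : ZMod d) * (u : ZMod d)) * ZMod.stdAddChar ((u⁻¹ : (ZMod d)ˣ) : ZMod d)) := by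
    intro t
    unfold Kloo.K
    rw [mul_sum]
    refine Finset.sum_congr rfl fun u _ => ?_
    rw [AddChar.map_add_eq_mul]
  rw [Finset.sum_congr rfl fun t _ => e1 t, Finset.sum_comm]
  have e2 : ∀ u : (ZMod d)ˣ, ∑ t : (ZMod d)ˣ, φ (t : ZMod d) *
        (ZMod.stdAddChar ((α : ZMod d) * (t : ZMod d) * (u : ZMod d)) * ZMod.stdAddChar ((u⁻¹ : (ZMod d)ˣ) : ZMod d)) =
      φ ((α⁻¹ : (ZMod d)ˣ) : ZMod d) * G φ *
        (φ ((u⁻¹ : (ZMod d)ˣ) : ZMod d) * ZMod.stdAddChar ((u⁻¹ : (ZMod d)ˣ) : ZMod d)) := by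
    intro u
    have e3 : ∑ t : (ZMod d)ˣ, φ (t : ZMod d) * ZMod.stdAddChar ((α : ZMod d) * (t : ZMod d) * (u : ZMod d)) =
        φ ((α⁻¹ : (ZMod d)ˣ) : ZMod d) * φ ((u⁻¹ : (ZMod d)ˣ) : ZMod d) * G φ := by
      unfold G
      rw [mul_sum]
      refine Fintype.sum_equiv (Equiv.mulLeft (α * u)) _ _ fun t => ?_
      rw [Equiv.coe_mulLeft]
      have h1 : ((α * u * t : (ZMod d)ˣ) : ZMod d) = (α : ZMod d) * (t : ZMod d) * (u : ZMod d) := by
        push_cast; ring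
      rw [h1, ← mul_assoc, ← map_mul, ← map_mul]
      congr 2
      rw [← Units.val_mul, ← Units.val_mul, ← Units.val_mul, ← Units.val_mul]
      congr 1
      have h2 : α⁻¹ * u⁻¹ * (α * t * u) = (α⁻¹ * α) * (u⁻¹ * u) * t := by
        rw [mul_right_comm α t u, ← mul_assoc (α⁻¹ * u⁻¹), mul_mul_mul_comm]
      rw [h2, inv_mul_cancel, inv_mul_cancel, one_mul, one_mul]
    have e4 : ∀ t : (ZMod d)ˣ, φ (t : ZMod d) *
        (ZMod.stdAddChar ((α : ZMod d) * (t : ZMod d) * (u : ZMod d)) * ZMod.stdAddChar ((u⁻¹ : (ZMod d)ˣ) : ZMod d)) =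
        (φ (t : ZMod d) * ZMod.stdAddChar ((α : ZMod d) * (t : ZMod d) * (u : ZMod d))) *
          ZMod.stdAddChar ((u⁻¹ : (ZMod d)ˣ) : ZMod d) := fun t => by ring
    rw [Finset.sum_congr rfl fun t _ => e4 t, ← sum_mul, e3]
    ring
  rw [Finset.sum_congr rfl fun u _ => e2 u, ← mul_sum]
  have e5 : ∑ u : (ZMod d)ˣ, φ ((u⁻¹ : (ZMod d)ˣ) : ZMod d) *
      ZMod.stdAddChar ((u⁻¹ : (ZMod d)ˣ) : ZMod d) = G φ :=
    Fintype.sum_equiv (Equiv.inv _) _ _ fun u => rfl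
  rw [e5]
  ring

end PA15
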