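import Pool.Agent.LibPA15.A

/-!
# LibPA15/B: Parseval on the units modulo a prime and the shift bound
-/

set_option autoImplicit false

namespace PA15

open Finset

variable {d : ℕ} [Fact d.Prime]

lemma conj_char (φ : MulChar (ZMod d) ℂ) (s : (ZMod d)ˣ) :
    (starRingEnd ℂ) (φ (s : ZMod d)) = φ ((s : ZMod d)⁻¹) := by
  have h1 : (starRingEnd ℂ) (φ (s : ZMod d)) = φ⁻¹ (s : ZMod d) := MulChar.star_apply' φ _
  rw [h1, MulChar.inv_apply']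

lemma card_units' : (Fintype.card (ZMod d)ˣ : ℝ) = (d : ℝ) - 1 := by
  have hp : d.Prime := Fact.out
  rw [ZMod.card_units d, Nat.cast_sub hp.one_le, Nat.cast_one]

/-- Parseval's identity -/
theorem parseval (f : (ZMod d)ˣ → ℂ) :
    ∑ φ : MulChar (ZMod d) ℂ, ‖∑ t : (ZMod d)ˣ, φ (t : ZMod d) * f t‖ ^ 2 =
      ((d : ℝ) - 1) * ∑ t : (ZMod d)ˣ, ‖f t‖ ^ 2 := by
  have hp : d.Prime := Fact.out
  have key : ∑ φ : MulChar (ZMod d) ℂ, ((‖∑ t : (ZMod d)ˣ, φ (t : ZMod d) * f t‖ ^ 2 : ℝ) : ℂ) =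
      (((d : ℝ) - 1 : ℝ) : ℂ) * ∑ t : (ZMod d)ˣ, ((‖f t‖ ^ 2 : ℝ) : ℂ) := by
    have e1 : ∀ φ : MulChar (ZMod d) ℂ,
        ((‖∑ t : (ZMod d)ˣ, φ (t : ZMod d) * f t‖ ^ 2 : ℝ) : ℂ) =
        ∑ t : (ZMod d)ˣ, ∑ s : (ZMod d)ˣ, (f t * (starRingEnd ℂ) (f s)) *
          (φ ((s : ZMod d)⁻¹) * φ (t : ZMod d)) := by
      intro φ
      rw [← Complex.normSq_eq_norm_sq, ← Complex.mul_conj, map_sum, sum_mul_sum]
      refine sum_congr rfl fun t _ => sum_congr rfl fun s _ => ?_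
      rw [map_mul, conj_char]
      ring
    rw [sum_congr rfl fun φ _ => e1 φ, sum_comm, mul_sum]
    refine sum_congr rfl fun t _ => ?_
    rw [sum_comm]
    have e2 : ∀ s : (ZMod d)ˣ, ∑ φ : MulChar (ZMod d) ℂ, (f t * (starRingEnd ℂ) (f s)) *
          (φ ((s : ZMod d)⁻¹) * φ (t : ZMod d)) =
        if s = t then (((d : ℝ) - 1 : ℝ) : ℂ) * (f t * (starRingEnd ℂ) (f s)) else 0 := by
      intro s
      rw [← mul_sum]
      have h := DirichletCharacter.sum_char_inv_mul_char_eq (R := ℂ) (n := d)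
        (a := (s : ZMod d)) s.isUnit (t : ZMod d)
      rw [h]
      by_cases hst : s = t
      · rw [if_pos (by rw [hst]), if_pos hst, Nat.totient_prime hp, Nat.cast_sub hp.one_le]
        push_cast
        ring
      · rw [if_neg (fun h => hst (Units.ext h)), if_neg hst, mul_zero]
    rw [sum_congr rfl fun s _ => e2 s, sum_ite_eq' univ t, if_pos (mem_univ _), Complex.mul_conj,
      Complex.normSq_eq_norm_sq]
  have key2 : ((∑ φ : MulChar (ZMod d) ℂ, ‖∑ t : (ZMod d)ˣ, φ (t : ZMod d) * f t‖ ^ 2 : ℝ) : ℂ) =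
      ((((d : ℝ) - 1) * ∑ t : (ZMod d)ˣ, ‖f t‖ ^ 2 : ℝ) : ℂ) := by
    push_cast
    push_cast at key
    exact key
  exact_mod_cast key2

/-- Bessel for the shifts: if all Mellin coefficients of `f` are at most `B`, then
`∑ |∑_{k ∈ T} f(k t)|^2 ≤ B^2 |T|` -/
theorem shift_bound (f : (ZMod d)ˣ → ℂ) (B : ℝ)
    (hB : ∀ φ : MulChar (ZMod d) ℂ, ‖∑ t : (ZMod d)ˣ, φ (t : ZMod d) * f t‖ ≤ B)
    (T : Finset (ZMod d)ˣ) :
    ∑ t : (ZMod d)ˣ, ‖∑ k ∈ T, f (k * t)‖ ^ 2 ≤ B ^ 2 * #T := by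
  classical
  have hp : d.Prime := Fact.out
  have hd1 : (0 : ℝ) < (d : ℝ) - 1 := by
    have : (1 : ℝ) < d := by exact_mod_cast hp.one_lt
    linarith
  have h1 := parseval (fun t : (ZMod d)ˣ => ∑ k ∈ T, f (k * t))
  have h2 : ∀ φ : MulChar (ZMod d) ℂ,
      ∑ t : (ZMod d)ˣ, φ (t : ZMod d) * ∑ k ∈ T, f (k * t) =
      (∑ k ∈ T, φ ((k⁻¹ : (ZMod d)ˣ) : ZMod d)) * ∑ t : (ZMod d)ˣ, φ (t : ZMod d) * f t := by
    intro φ
    have e0 : ∀ t : (ZMod d)ˣ, φ (t : ZMod d) * ∑ k ∈ T, f (k * t) =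
        ∑ k ∈ T, φ (t : ZMod d) * f (k * t) := fun t => by rw [mul_sum]
    rw [sum_congr rfl fun t _ => e0 t, sum_comm, sum_mul]
    refine sum_congr rfl fun k _ => ?_
    rw [mul_sum]
    refine Fintype.sum_equiv (Equiv.mulLeft k) _ _ fun t => ?_
    rw [Equiv.coe_mulLeft, ← mul_assoc, ← map_mul, ← Units.val_mul, inv_mul_cancel_left]
  have h3 := parseval (fun t : (ZMod d)ˣ => if t⁻¹ ∈ T then (1 : ℂ) else 0)
  have h4 : ∀ φ : MulChar (ZMod d) ℂ,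
      ∑ t : (ZMod d)ˣ, φ (t : ZMod d) * (if t⁻¹ ∈ T then (1 : ℂ) else 0) =
      ∑ k ∈ T, φ ((k⁻¹ : (ZMod d)ˣ) : ZMod d) := by
    intro φ
    have : ∑ t : (ZMod d)ˣ, φ (t : ZMod d) * (if t⁻¹ ∈ T then (1 : ℂ) else 0) =
        ∑ t : (ZMod d)ˣ, if t ∈ T then φ ((t⁻¹ : (ZMod d)ˣ) : ZMod d) else 0 := by
      refine Fintype.sum_equiv (Equiv.inv _) _ _ fun t => ?_
      rw [Equiv.inv_apply, inv_inv]
      split_ifs <;> simp
    rw [this, ← sum_filter, filter_mem_eq_inter, univ_inter]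
  have h5 : ∑ t : (ZMod d)ˣ, ‖(if t⁻¹ ∈ T then (1 : ℂ) else 0)‖ ^ 2 = #T := by
    have : ∑ t : (ZMod d)ˣ, ‖(if t⁻¹ ∈ T then (1 : ℂ) else 0)‖ ^ 2 =
        ∑ t : (ZMod d)ˣ, if t ∈ T then (1 : ℝ) else 0 := by
      refine Fintype.sum_equiv (Equiv.inv _) _ _ fun t => ?_
      rw [Equiv.inv_apply]
      split_ifs <;> simp
    rw [this, ← sum_filter, filter_mem_eq_inter, univ_inter]
    simp
  have h6 : ∑ φ : MulChar (ZMod d) ℂ, ‖∑ k ∈ T, φ ((k⁻¹ : (ZMod d)ˣ) : ZMod d)‖ ^ 2 =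
      ((d : ℝ) - 1) * #T := by
    rw [← h5, ← h3]
    exact sum_congr rfl fun φ _ => by rw [h4 φ]
  have h7 : ((d : ℝ) - 1) * ∑ t : (ZMod d)ˣ, ‖∑ k ∈ T, f (k * t)‖ ^ 2 ≤
      ((d : ℝ) - 1) * (B ^ 2 * #T) := by
    rw [← h1]
    calc ∑ φ : MulChar (ZMod d) ℂ, ‖∑ t : (ZMod d)ˣ, φ (t : ZMod d) * ∑ k ∈ T, f (k * t)‖ ^ 2
        = ∑ φ : MulChar (ZMod d) ℂ, ‖∑ k ∈ T, φ ((k⁻¹ : (ZMod d)ˣ) : ZMod d)‖ ^ 2 *
            ‖∑ t : (ZMod d)ˣ, φ (t : ZMod d) * f t‖ ^ 2 :=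
          sum_congr rfl fun φ _ => by rw [h2 φ, norm_mul, mul_pow]
      _ ≤ ∑ φ : MulChar (ZMod d) ℂ, ‖∑ k ∈ T, φ ((k⁻¹ : (ZMod d)ˣ) : ZMod d)‖ ^ 2 * B ^ 2 := by
          refine sum_le_sum fun φ _ => ?_
          refine mul_le_mul_of_nonneg_left ?_ (by positivity)
          exact pow_le_pow_left₀ (norm_nonneg _) (hB φ) 2
      _ = ((d : ℝ) - 1) * (B ^ 2 * #T) := by rw [← sum_mul, h6]; ring
  exact le_of_mul_le_mul_left h7 hd1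

/-- the main inequality -/
theorem main_ineq (f : (ZMod d)ˣ → ℝ) (B : ℝ)
    (hB : ∀ φ : MulChar (ZMod d) ℂ, ‖∑ t : (ZMod d)ˣ, φ (t : ZMod d) * (f t : ℂ)‖ ≤ B)
    (T : Finset (ZMod d)ˣ)
    (hT : ∀ k ∈ T, ∀ t, Real.sign (f t) * f (k * t) = |f (k * t)|) :
    (∑ t : (ZMod d)ˣ, |f t|) ^ 2 * #T ≤ ((d : ℝ) - 1) * B ^ 2 := by
  rcases T.eq_empty_or_nonempty with hT0 | hT0
  · subst hT0
    have hp : d.Prime := Fact.out
    have : (1 : ℝ) < d := by exact_mod_cast hp.one_lt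
    simp only [card_empty, Nat.cast_zero, mul_zero]
    exact mul_nonneg (by linarith) (by positivity)
  have hTpos : (0 : ℝ) < #T := by exact_mod_cast hT0.card_pos
  have h1 := shift_bound (fun t => (f t : ℂ)) B hB T
  have h2 : ∀ t : (ZMod d)ˣ, ‖∑ k ∈ T, ((f (k * t) : ℝ) : ℂ)‖ ^ 2 = (∑ k ∈ T, f (k * t)) ^ 2 := by
    intro t
    rw [← Complex.ofReal_sum, Complex.norm_real, Real.norm_eq_abs, sq_abs]
  rw [sum_congr rfl fun t _ => h2 t] at h1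
  have h3 : (#T : ℝ) * ∑ t : (ZMod d)ˣ, |f t| =
      ∑ t : (ZMod d)ˣ, Real.sign (f t) * ∑ k ∈ T, f (k * t) := by
    have e1 : ∀ t : (ZMod d)ˣ, Real.sign (f t) * ∑ k ∈ T, f (k * t) =
        ∑ k ∈ T, |f (k * t)| := by
      intro t
      rw [mul_sum]
      exact sum_congr rfl fun k hk => hT k hk t
    rw [sum_congr rfl fun t _ => e1 t, sum_comm]
    have e2 : ∀ k ∈ T, ∑ t : (ZMod d)ˣ, |f (k * t)| = ∑ t : (ZMod d)ˣ, |f t| := by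
      intro k _
      exact Fintype.sum_equiv (Equiv.mulLeft k) _ _ fun t => rfl
    rw [sum_congr rfl e2, sum_const, nsmul_eq_mul]
  have h4 : ((#T : ℝ) * ∑ t : (ZMod d)ˣ, |f t|) ^ 2 ≤
      ((d : ℝ) - 1) * ∑ t : (ZMod d)ˣ, (∑ k ∈ T, f (k * t)) ^ 2 := by
    rw [h3]
    have hcs := sum_mul_sq_le_sq_mul_sq univ (fun t : (ZMod d)ˣ => Real.sign (f t))
      (fun t => ∑ k ∈ T, f (k * t))
    refine hcs.trans ?_
    refine mul_le_mul_of_nonneg_right ?_ (sum_nonneg fun _ _ => sq_nonneg _)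
    calc ∑ t : (ZMod d)ˣ, Real.sign (f t) ^ 2 ≤ ∑ t : (ZMod d)ˣ, (1 : ℝ) := by
          refine sum_le_sum fun t _ => ?_
          rcases Real.sign_apply_eq (f t) with h | h | h <;> rw [h] <;> norm_num
      _ = (d : ℝ) - 1 := by rw [sum_const, nsmul_eq_mul, mul_one, card_univ, card_units']
  have hd : (0 : ℝ) ≤ (d : ℝ) - 1 := by
    have hp : d.Prime := Fact.out
    have : (1 : ℝ) < d := by exact_mod_cast hp.one_lt
    linarith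
  have h5 : ((#T : ℝ) * ∑ t : (ZMod d)ˣ, |f t|) ^ 2 ≤ ((d : ℝ) - 1) * (B ^ 2 * #T) :=
    h4.trans (mul_le_mul_of_nonneg_left h1 hd)
  have h6 : (#T : ℝ) * ((∑ t : (ZMod d)ˣ, |f t|) ^ 2 * #T) ≤ (#T : ℝ) * (((d : ℝ) - 1) * B ^ 2) := by
    nlinarith [h5]
  exact le_of_mul_le_mul_left h6 hTpos

end PA15
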