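import Pool.Agent.LibPA15.B
import Pool.Agent.LibKlVar.KV_Main

/-!
# LibPA15/C: the function `f(t) = K(α t) (1 + χ(t))`: Mellin bound `2 d` and lower bound for its `L^1` norm
-/

set_option autoImplicit false

namespace PA15

open Finset

variable {d : ℕ} [Fact d.Prime]

/-- real part of the Kloosterman sum `K(α)` -/
noncomputable def Kr (d : ℕ) [NeZero d] (α : ZMod d) : ℝ := (Kloo.K d α).re

lemma K_eq (α : ZMod d) : Kloo.K d α = (Kr d α : ℂ) := by
  apply Complex.ext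
  · rfl
  · rw [Kloo.K_im, Complex.ofReal_im]

/-- Weil's bound -/
lemma Kr_le (α : ZMod d) (hα : α ≠ 0) : |Kr d α| ≤ 2 * Real.sqrt d := by
  have hp : d.Prime := Fact.out
  have h := Pool.KV.weilBd d hp 1 α 1 hα one_ne_zero
  have e : ∑ u : (ZMod d)ˣ, (1 : MulChar (ZMod d) ℂ) (u : ZMod d) *
      ZMod.stdAddChar (α * (u : ZMod d) + 1 * ((u⁻¹ : (ZMod d)ˣ) : ZMod d)) = Kloo.K d α := by
    unfold Kloo.K
    refine sum_congr rfl fun u _ => ?_
    rw [MulChar.one_apply_coe, one_mul, one_mul]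
  rw [e] at h
  exact (Complex.abs_re_le_norm _).trans h

lemma Kr_ne_zero (α : ZMod d) : Kr d α ≠ 0 := by
  have hp : d.Prime := Fact.out
  intro h
  apply Kloo.K_prime_ne_zero hp α
  rw [K_eq, h, Complex.ofReal_zero]

/-- the quadratic character, real-valued -/
noncomputable def qc (d : ℕ) [Fact d.Prime] (t : ZMod d) : ℝ := ((quadraticChar (ZMod d) t : ℤ) : ℝ)

/-- the function `f(t) = K(α t) (1 + χ(t))` -/
noncomputable def ff (α : (ZMod d)ˣ) (t : (ZMod d)ˣ) : ℝ :=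
  Kr d ((α : ZMod d) * (t : ZMod d)) * (1 + qc d (t : ZMod d))

theorem mellin_ff (α : (ZMod d)ˣ) (φ : MulChar (ZMod d) ℂ) :
    ‖∑ t : (ZMod d)ˣ, φ (t : ZMod d) * (ff α t : ℂ)‖ ≤ 2 * d := by
  have e1 : ∀ t : (ZMod d)ˣ, φ (t : ZMod d) * (ff α t : ℂ) =
      φ (t : ZMod d) * Kloo.K d ((α : ZMod d) * (t : ZMod d)) +
      (φ * Kloo.chi d) (t : ZMod d) * Kloo.K d ((α : ZMod d) * (t : ZMod d)) := by
    intro t
    rw [MulChar.mul_apply, Kloo.chi_apply, K_eq]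
    unfold ff qc
    push_cast
    ring
  rw [sum_congr rfl fun t _ => e1 t, sum_add_distrib, mellin, mellin]
  have h1 : ∀ ψ : MulChar (ZMod d) ℂ, ‖ψ ((α⁻¹ : (ZMod d)ˣ) : ZMod d) * G ψ ^ 2‖ ≤ d := by
    intro ψ
    rw [norm_mul, norm_pow]
    have h2 : ‖ψ ((α⁻¹ : (ZMod d)ˣ) : ZMod d)‖ ≤ 1 := DirichletCharacter.norm_le_one ψ _
    calc ‖ψ ((α⁻¹ : (ZMod d)ˣ) : ZMod d)‖ * ‖G ψ‖ ^ 2 ≤ 1 * d :=
          mul_le_mul h2 (norm_G ψ) (by positivity) zero_le_one
      _ = d := one_mul _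
  calc _ ≤ ‖φ ((α⁻¹ : (ZMod d)ˣ) : ZMod d) * G φ ^ 2‖ +
      ‖(φ * Kloo.chi d) ((α⁻¹ : (ZMod d)ˣ) : ZMod d) * G (φ * Kloo.chi d) ^ 2‖ := norm_add_le _ _
    _ ≤ d + d := add_le_add (h1 _) (h1 _)
    _ = 2 * d := by ring

lemma card_sqrt_units (h2 : d ≠ 2) (t : (ZMod d)ˣ) :
    ((#(univ.filter fun u : (ZMod d)ˣ => u ^ 2 = t) : ℕ) : ℝ) = 1 + qc d (t : ZMod d) := by
  classical
  have hF : ringChar (ZMod d) ≠ 2 := by rw [ZMod.ringChar_zmod_n]; exact h2
  have h := quadraticChar_card_sqrts hF (t : ZMod d)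
  have e : #(univ.filter fun u : (ZMod d)ˣ => u ^ 2 = t) =
      ({x : ZMod d | x ^ 2 = (t : ZMod d)} : Set (ZMod d)).toFinset.card := by
    refine card_bij (fun u _ => (u : ZMod d)) ?_ ?_ ?_
    · intro u hu
      rw [mem_filter] at hu
      rw [Set.mem_toFinset, Set.mem_ofPred_eq, ← hu.2, Units.val_pow_eq_pow_val]
    · intro u _ v _ h
      exact Units.ext h
    · intro x hx
      rw [Set.mem_toFinset, Set.mem_ofPred_eq] at hx
      have hx0 : x ≠ 0 := by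
        rintro rfl
        apply t.ne_zero
        rw [← hx]; ring
      refine ⟨Units.mk0 x hx0, ?_, rfl⟩
      rw [mem_filter]
      refine ⟨mem_univ _, Units.ext ?_⟩
      rw [Units.val_pow_eq_pow_val, Units.val_mk0, hx]
  rw [e]
  unfold qc
  have h' : ((({x : ZMod d | x ^ 2 = (t : ZMod d)} : Set (ZMod d)).toFinset.card : ℤ) : ℝ) =
      ((quadraticChar (ZMod d) (t : ZMod d) + 1 : ℤ) : ℝ) := by exact_mod_cast h
  push_cast at h'
  rw [add_comm]
  exact_mod_cast h'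

theorem sum_sq (h2 : d ≠ 2) (H : (ZMod d)ˣ → ℝ) :
    ∑ u : (ZMod d)ˣ, H (u ^ 2) = ∑ t : (ZMod d)ˣ, H t * (1 + qc d (t : ZMod d)) := by
  classical
  rw [← sum_fiberwise univ (fun u : (ZMod d)ˣ => u ^ 2) (fun u => H (u ^ 2))]
  refine sum_congr rfl fun t _ => ?_
  rw [← card_sqrt_units h2 t]
  rw [sum_congr rfl (fun u hu => by rw [(mem_filter.1 hu).2] : ∀ u ∈ univ.filter
    (fun u : (ZMod d)ˣ => u ^ 2 = t), H (u ^ 2) = H t), sum_const, nsmul_eq_mul, mul_comm]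

/-- the second moment over squares -/
theorem second (h2 : d ≠ 2) (α : (ZMod d)ˣ) :
    (d : ℝ) ^ 2 - 2 * d - 1 ≤ ∑ u : (ZMod d)ˣ, Kr d ((α : ZMod d) * (u : ZMod d) ^ 2) ^ 2 := by
  classical
  have hp : d.Prime := Fact.out
  set c : (ZMod d)ˣ → ZMod d := fun v => (α : ZMod d) * (v : ZMod d) + ((v⁻¹ : (ZMod d)ˣ) : ZMod d)
    with hc
  -- K(α u²) = ∑_v e(u c(v))
  have hK : ∀ u : (ZMod d)ˣ, Kloo.K d ((α : ZMod d) * (u : ZMod d) ^ 2) =
      ∑ v : (ZMod d)ˣ, ZMod.stdAddChar ((u : ZMod d) * c v) := by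
    intro u
    unfold Kloo.K
    refine Fintype.sum_equiv (Equiv.mulLeft u) _ _ fun v => ?_
    rw [Equiv.coe_mulLeft, hc]
    congr 1
    simp only [mul_inv, Units.val_mul]
    have hu : (u : ZMod d) * ((u⁻¹ : (ZMod d)ˣ) : ZMod d) = 1 := Units.mul_inv u
    linear_combination (-((v⁻¹ : (ZMod d)ˣ) : ZMod d)) * hu
  have hS : ∑ u : ZMod d, (∑ v : (ZMod d)ˣ, (ZMod.stdAddChar (u * c v) : ℂ)) ^ 2 =
      (d : ℂ) * #((univ : Finset ((ZMod d)ˣ × (ZMod d)ˣ)).filter fun p => c p.1 + c p.2 = 0) := by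
    have e1 : ∀ u : ZMod d, (∑ v : (ZMod d)ˣ, (ZMod.stdAddChar (u * c v) : ℂ)) ^ 2 =
        ∑ p : (ZMod d)ˣ × (ZMod d)ˣ, (ZMod.stdAddChar ((c p.1 + c p.2) * u) : ℂ) := by
      intro u
      rw [pow_two, sum_mul_sum, ← Finset.sum_product', univ_product_univ]
      refine sum_congr rfl fun p _ => ?_
      rw [← AddChar.map_add_eq_mul]
      congr 1
      ring
    rw [sum_congr rfl fun u _ => e1 u, sum_comm]
    have e2 : ∀ p : (ZMod d)ˣ × (ZMod d)ˣ,
        ∑ u : ZMod d, (ZMod.stdAddChar ((c p.1 + c p.2) * u) : ℂ) =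
          if c p.1 + c p.2 = 0 then (d : ℂ) else 0 := by
      intro p
      by_cases h : c p.1 + c p.2 = 0
      · rw [if_pos h, h]
        simp [ZMod.card]
      · rw [if_neg h]
        exact Kloo.sum_psi_zero _ h
    rw [sum_congr rfl fun p _ => e2 p, ← sum_filter, sum_const, nsmul_eq_mul, mul_comm]
  rw [Kloo.sum_units_eq] at hS
  have h0 : (∑ v : (ZMod d)ˣ, (ZMod.stdAddChar ((0 : ZMod d) * c v) : ℂ)) ^ 2 = ((d : ℂ) - 1) ^ 2 := by
    simp only [zero_mul, AddChar.map_zero_eq_one, sum_const, card_univ, nsmul_eq_mul, mul_one]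
    rw [ZMod.card_units d, Nat.cast_sub hp.one_le, Nat.cast_one]
  rw [h0] at hS
  have hR : ((d : ℝ) - 1) ^ 2 + ∑ u : (ZMod d)ˣ, Kr d ((α : ZMod d) * (u : ZMod d) ^ 2) ^ 2 =
      (d : ℝ) * #((univ : Finset ((ZMod d)ˣ × (ZMod d)ˣ)).filter fun p => c p.1 + c p.2 = 0) := by
    have h1 : ∀ u : (ZMod d)ˣ, (∑ v : (ZMod d)ˣ, (ZMod.stdAddChar ((u : ZMod d) * c v) : ℂ)) ^ 2 =
        ((Kr d ((α : ZMod d) * (u : ZMod d) ^ 2) ^ 2 : ℝ) : ℂ) := by
      intro u
      rw [← hK u, K_eq]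
      push_cast
      ring
    rw [sum_congr rfl fun u _ => h1 u] at hS
    exact_mod_cast hS
  -- counting
  have hN : (2 * ((d : ℝ) - 1) - 2) ≤
      #((univ : Finset ((ZMod d)ˣ × (ZMod d)ˣ)).filter fun p => c p.1 + c p.2 = 0) := by
    have hA : ∀ v : (ZMod d)ˣ, c v + c (-v) = 0 := by
      intro v
      rw [hc]
      simp only [inv_neg, Units.val_neg]
      ring
    have hB : ∀ v : (ZMod d)ˣ, c v + c (-(α * v)⁻¹) = 0 := by
      intro v
      rw [hc]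
      simp only [inv_neg, inv_inv, Units.val_neg, mul_inv, Units.val_mul]
      have hα : (α : ZMod d) * ((α⁻¹ : (ZMod d)ˣ) : ZMod d) = 1 := Units.mul_inv α
      linear_combination (-((v⁻¹ : (ZMod d)ˣ) : ZMod d)) * hα
    set A := (univ : Finset (ZMod d)ˣ).image fun v => (v, -v) with hAdef
    set B := (univ : Finset (ZMod d)ˣ).image fun v => (v, -(α * v)⁻¹) with hBdef
    have hAc : #A = Fintype.card (ZMod d)ˣ := by
      rw [hAdef, card_image_of_injective _ (fun v w h => (Prod.mk.inj h).1), card_univ]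
    have hBc : #B = Fintype.card (ZMod d)ˣ := by
      rw [hBdef, card_image_of_injective _ (fun v w h => (Prod.mk.inj h).1), card_univ]
    have hI : #(A ∩ B) ≤ #(univ.filter fun u : (ZMod d)ˣ => u ^ 2 = α⁻¹) := by
      refine card_le_card_of_injOn (fun p => p.1) ?_ ?_
      · intro p hp
        have hp' := mem_inter.1 (mem_coe.1 hp)
        rw [hAdef, mem_image, hBdef, mem_image] at hp'
        obtain ⟨⟨v, _, hv⟩, ⟨w, _, hw⟩⟩ := hp'
        rw [← hv, Prod.mk.injEq] at hw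
        rw [mem_coe, mem_filter]
        refine ⟨mem_univ _, ?_⟩
        obtain ⟨hw1, hw2⟩ := hw
        rw [hw1] at hw2
        have hw3 : (α * v)⁻¹ = v := neg_injective hw2
        rw [← hv]
        show v ^ 2 = α⁻¹
        have : α * v * v = 1 := by
          calc α * v * v = α * v * (α * v)⁻¹ := by rw [hw3]
            _ = 1 := mul_inv_cancel _
        rw [eq_inv_iff_mul_eq_one, pow_two, mul_comm, ← mul_assoc]
        exact this
      · intro p hp q hq hpq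
        have hp' := mem_inter.1 (mem_coe.1 hp)
        have hq' := mem_inter.1 (mem_coe.1 hq)
        rw [hAdef, mem_image] at hp' hq'
        obtain ⟨⟨v, _, hv⟩, _⟩ := hp'
        obtain ⟨⟨w, _, hw⟩, _⟩ := hq'
        rw [← hv, ← hw] at hpq ⊢
        simp only at hpq
        rw [hpq]
    have hI2 : (#(A ∩ B) : ℝ) ≤ 2 := by
      have h3 := card_sqrt_units h2 α⁻¹
      have h4 : qc d ((α⁻¹ : (ZMod d)ˣ) : ZMod d) ≤ 1 := by
        unfold qc
        rcases quadraticChar_dichotomy (F := ZMod d) (α⁻¹).ne_zero with h | h <;> rw [h] <;> norm_num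
      have h5 : ((#(A ∩ B) : ℕ) : ℝ) ≤ #(univ.filter fun u : (ZMod d)ˣ => u ^ 2 = α⁻¹) := by
        exact_mod_cast hI
      rw [h3] at h5
      linarith
    have hU : #(A ∪ B) ≤
        #((univ : Finset ((ZMod d)ˣ × (ZMod d)ˣ)).filter fun p => c p.1 + c p.2 = 0) := by
      refine card_le_card fun p hp => ?_
      rw [mem_filter]
      refine ⟨mem_univ _, ?_⟩
      rcases mem_union.1 hp with h | h
      · obtain ⟨v, _, rfl⟩ := mem_image.1 h
        exact hA v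
      · obtain ⟨v, _, rfl⟩ := mem_image.1 h
        exact hB v
    have hUI := card_union_add_card_inter A B
    have hUI' : ((#(A ∪ B) : ℕ) : ℝ) + #(A ∩ B) = 2 * ((d : ℝ) - 1) := by
      have : ((#(A ∪ B) + #(A ∩ B) : ℕ) : ℝ) = ((#A + #B : ℕ) : ℝ) := by rw [hUI]
      push_cast at this
      rw [this, hAc, hBc, card_units']
      ring
    have hU' : ((#(A ∪ B) : ℕ) : ℝ) ≤
        #((univ : Finset ((ZMod d)ˣ × (ZMod d)ˣ)).filter fun p => c p.1 + c p.2 = 0) := by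
      exact_mod_cast hU
    linarith
  have hd : (0 : ℝ) ≤ d := Nat.cast_nonneg _
  nlinarith [mul_le_mul_of_nonneg_left hN hd]

/-- lower bound for the `L^1` norm -/
theorem l1_ff (h2 : d ≠ 2) (α : (ZMod d)ˣ) :
    (d : ℝ) ^ 2 - 2 * d - 1 ≤ 2 * Real.sqrt d * ∑ t : (ZMod d)ˣ, |ff α t| := by
  have h1 : ∑ t : (ZMod d)ˣ, |ff α t| =
      ∑ u : (ZMod d)ˣ, |Kr d ((α : ZMod d) * (u : ZMod d) ^ 2)| := by
    have h3 := sum_sq h2 (fun t : (ZMod d)ˣ => |Kr d ((α : ZMod d) * (t : ZMod d))|)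
    simp only [Units.val_pow_eq_pow_val] at h3
    rw [h3]
    refine sum_congr rfl fun t _ => ?_
    unfold ff
    rw [abs_mul]
    congr 1
    rw [abs_of_nonneg]
    unfold qc
    rcases quadraticChar_dichotomy (F := ZMod d) t.ne_zero with h | h <;> rw [h] <;> norm_num
  rw [h1, mul_sum]
  refine (second h2 α).trans (sum_le_sum fun u _ => ?_)
  have h4 := Kr_le ((α : ZMod d) * (u : ZMod d) ^ 2)
    (mul_ne_zero α.ne_zero (pow_ne_zero 2 u.ne_zero))
  rw [← sq_abs, pow_two]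
  exact mul_le_mul_of_nonneg_right h4 (abs_nonneg _)

end PA15
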