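import Pool.Agent.LibPA15.C

/-!
# LibPA15/D: for `b ≠ ± a` the sign of `K(a y²) K(b y²)` is not a function of `χ(y)` for a suitable prime
-/

set_option autoImplicit false

namespace PA15

open Finset

section
variable {d : ℕ} [Fact d.Prime]

/-- if `P(u) = K(α u²) K(α (τ u)²)` has constant sign on the pairs `y, z` with `y z` a square, then
`K(α u²)` and `K(α (τ⁴ u)²)` have the same sign -/
lemma inv_four (α τ : (ZMod d)ˣ)
    (h : ∀ y z : (ZMod d)ˣ, IsSquare (y * z) →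
      0 < (Kr d ((α : ZMod d) * (y : ZMod d) ^ 2) * Kr d ((α : ZMod d) * ((τ * y : (ZMod d)ˣ) : ZMod d) ^ 2)) *
        (Kr d ((α : ZMod d) * (z : ZMod d) ^ 2) * Kr d ((α : ZMod d) * ((τ * z : (ZMod d)ˣ) : ZMod d) ^ 2)))
    (u : (ZMod d)ˣ) :
    0 < Kr d ((α : ZMod d) * (u : ZMod d) ^ 2) *
      Kr d ((α : ZMod d) * ((τ ^ 4 * u : (ZMod d)ˣ) : ZMod d) ^ 2) := by
  have hsq : ∀ x : (ZMod d)ˣ, x * (τ * (τ * x)) = (τ * x) * (τ * x) := by
    intro x
    rw [mul_left_comm, mul_assoc]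
  have h1 := h u (τ * (τ * u)) ⟨τ * u, hsq u⟩
  have h2 := h (τ * u) (τ * (τ * (τ * u))) ⟨τ * (τ * u), hsq (τ * u)⟩
  have e4 : τ * (τ * (τ * (τ * u))) = τ ^ 4 * u := by
    rw [pow_succ, pow_succ, pow_succ, pow_one, mul_assoc, mul_assoc, mul_assoc]
  rw [e4] at h2
  have h3 := mul_pos h1 h2
  have p1 := Kr_ne_zero ((α : ZMod d) * ((τ * u : (ZMod d)ˣ) : ZMod d) ^ 2)
  have p2 := Kr_ne_zero ((α : ZMod d) * ((τ * (τ * u) : (ZMod d)ˣ) : ZMod d) ^ 2)
  have p3 := Kr_ne_zero ((α : ZMod d) * ((τ * (τ * (τ * u)) : (ZMod d)ˣ) : ZMod d) ^ 2)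
  set A := Kr d ((α : ZMod d) * (u : ZMod d) ^ 2)
  set B := Kr d ((α : ZMod d) * ((τ * u : (ZMod d)ˣ) : ZMod d) ^ 2)
  set C := Kr d ((α : ZMod d) * ((τ * (τ * u) : (ZMod d)ˣ) : ZMod d) ^ 2)
  set D := Kr d ((α : ZMod d) * ((τ * (τ * (τ * u)) : (ZMod d)ˣ) : ZMod d) ^ 2)
  set E := Kr d ((α : ZMod d) * ((τ ^ 4 * u : (ZMod d)ˣ) : ZMod d) ^ 2)
  have h4 : 0 < (B * C * D) ^ 2 := by positivity
  have h5 : 0 < (A * E) * (B * C * D) ^ 2 := by
    have : (A * E) * (B * C * D) ^ 2 = A * B * (C * D) * (B * C * (D * E)) := by ring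
    rw [this]; exact h3
  exact (pos_iff_pos_of_mul_pos h5).2 h4

/-- iterated invariance -/
lemma inv_iter (α σ : (ZMod d)ˣ)
    (h : ∀ u : (ZMod d)ˣ, 0 < Kr d ((α : ZMod d) * (u : ZMod d) ^ 2) *
      Kr d ((α : ZMod d) * ((σ * u : (ZMod d)ˣ) : ZMod d) ^ 2)) (i : ℕ) (u : (ZMod d)ˣ) :
    0 < Kr d ((α : ZMod d) * (u : ZMod d) ^ 2) *
      Kr d ((α : ZMod d) * ((σ ^ i * u : (ZMod d)ˣ) : ZMod d) ^ 2) := by
  induction i with
  | zero =>
    rw [pow_zero, one_mul]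
    exact mul_self_pos.2 (Kr_ne_zero ((α : ZMod d) * (u : ZMod d) ^ 2))
  | succ i ih =>
    have h1 := h (σ ^ i * u)
    rw [← mul_assoc, ← pow_succ'] at h1
    have h2 := mul_pos ih h1
    have p1 := Kr_ne_zero ((α : ZMod d) * ((σ ^ i * u : (ZMod d)ˣ) : ZMod d) ^ 2)
    set A := Kr d ((α : ZMod d) * (u : ZMod d) ^ 2)
    set B := Kr d ((α : ZMod d) * ((σ ^ i * u : (ZMod d)ˣ) : ZMod d) ^ 2)
    set C := Kr d ((α : ZMod d) * ((σ ^ (i + 1) * u : (ZMod d)ˣ) : ZMod d) ^ 2)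
    have h4 : 0 < B ^ 2 := by positivity
    have h5 : 0 < (A * C) * B ^ 2 := by
      have : (A * C) * B ^ 2 = A * B * (B * C) := by ring
      rw [this]; exact h2
    exact (pos_iff_pos_of_mul_pos h5).2 h4

/-- the sign of a product -/
lemma sign_mul_eq {x y : ℝ} (h : 0 < x * y) : Real.sign x * y = |y| := by
  rcases lt_trichotomy x 0 with hx | hx | hx
  · have hy : y < 0 := by nlinarith
    rw [Real.sign_of_neg hx, abs_of_neg hy]; ring
  · rw [hx, zero_mul] at h; exact absurd h (lt_irrefl _)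
  · have hy : 0 < y := by nlinarith
    rw [Real.sign_of_pos hx, abs_of_pos hy, one_mul]

lemma few_num (d S : ℝ) (hd : 16 ≤ d) (hmain : S ^ 2 * 20 ≤ (d - 1) * (2 * d) ^ 2)
    (hl : d ^ 2 - 2 * d - 1 ≤ 2 * Real.sqrt d * S) : False := by
  have hsq : Real.sqrt d ^ 2 = d := Real.sq_sqrt (by linarith)
  have hpos : (0 : ℝ) ≤ d ^ 2 - 2 * d - 1 := by nlinarith
  have h5 : (d ^ 2 - 2 * d - 1) ^ 2 ≤ 4 * d * S ^ 2 := by
    have := pow_le_pow_left₀ hpos hl 2
    calc (d ^ 2 - 2 * d - 1) ^ 2 ≤ (2 * Real.sqrt d * S) ^ 2 := this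
      _ = 4 * (Real.sqrt d ^ 2) * S ^ 2 := by ring
      _ = 4 * d * S ^ 2 := by rw [hsq]
  have h6 : (d ^ 2 - 2 * d - 1) ^ 2 * 20 ≤ 16 * d ^ 3 * (d - 1) := by
    have h7 : (4 * d) * (S ^ 2 * 20) ≤ (4 * d) * ((d - 1) * (2 * d) ^ 2) :=
      mul_le_mul_of_nonneg_left hmain (by linarith)
    linarith
  have h8 : (d ^ 2 - 2 * d - 1) ^ 2 * 20 - 16 * d ^ 3 * (d - 1) =
      d ^ 2 * (d * (4 * (d - 16)) + 40) + 80 * d + 20 := by ring
  have h9 : (0 : ℝ) ≤ d * (4 * (d - 16)) := by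
    apply mul_nonneg (by linarith); linarith
  have h10 : 0 ≤ d ^ 2 * (d * (4 * (d - 16)) + 40) := mul_nonneg (sq_nonneg d) (by linarith)
  linarith

/-- the number of squares of shifts that preserve the signs is at most `16 (1 + o(1))` -/
theorem few_shifts (h16 : 16 ≤ d) (α σ : (ZMod d)ˣ)
    (h : ∀ u : (ZMod d)ˣ, 0 < Kr d ((α : ZMod d) * (u : ZMod d) ^ 2) *
      Kr d ((α : ZMod d) * ((σ * u : (ZMod d)ˣ) : ZMod d) ^ 2))
    (hinj : ∀ i < 20, ∀ j < 20, (σ ^ 2) ^ i = (σ ^ 2) ^ j → i = j) : False := by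
  classical
  have hp : d.Prime := Fact.out
  have h2 : d ≠ 2 := by omega
  set T : Finset (ZMod d)ˣ := (range 20).image fun i => (σ ^ 2) ^ i with hT
  have hTc : #T = 20 := by
    rw [hT, card_image_of_injOn, card_range]
    intro i hi j hj hij
    exact hinj i (mem_range.1 (mem_coe.1 hi)) j (mem_range.1 (mem_coe.1 hj)) hij
  have hsign : ∀ k ∈ T, ∀ t, Real.sign (ff α t) * ff α (k * t) = |ff α (k * t)| := by
    intro k hk t
    obtain ⟨i, _, rfl⟩ := mem_image.1 hk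
    by_cases ht : IsSquare (t : ZMod d)
    · obtain ⟨r, hr⟩ := ht
      have hr0 : r ≠ 0 := by
        rintro rfl
        exact t.ne_zero (by rw [hr, mul_zero])
      set u : (ZMod d)ˣ := Units.mk0 r hr0 with hu
      have htu : t = u ^ 2 := by
        apply Units.ext
        rw [Units.val_pow_eq_pow_val, hu, Units.val_mk0, hr, pow_two]
      have hq : ∀ v : (ZMod d)ˣ, ff α (v ^ 2) = 2 * Kr d ((α : ZMod d) * (v : ZMod d) ^ 2) := by
        intro v
        unfold ff qc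
        have h1 : quadraticChar (ZMod d) ((v ^ 2 : (ZMod d)ˣ) : ZMod d) = 1 := by
          rw [Units.val_pow_eq_pow_val]
          exact quadraticChar_sq_one' v.ne_zero
        rw [h1, Units.val_pow_eq_pow_val]
        push_cast
        ring
      have e1 : (σ ^ 2) ^ i * t = (σ ^ i * u) ^ 2 := by
        rw [htu, mul_pow, ← pow_mul, ← pow_mul, mul_comm 2 i]
      rw [e1, htu, hq, hq]
      apply sign_mul_eq
      have := inv_iter α σ h i u
      nlinarith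
    · have h1 : ff α t = 0 := by
        unfold ff qc
        rw [quadraticChar_neg_one_iff_not_isSquare.2 ht]
        push_cast
        ring
      have h3 : ff α ((σ ^ 2) ^ i * t) = 0 := by
        unfold ff qc
        have h4 : quadraticChar (ZMod d) (((σ ^ 2) ^ i * t : (ZMod d)ˣ) : ZMod d) = -1 := by
          rw [Units.val_mul, map_mul, quadraticChar_neg_one_iff_not_isSquare.2 ht, ← pow_mul,
            mul_comm 2 i, pow_mul, Units.val_pow_eq_pow_val, quadraticChar_sq_one' (Units.ne_zero _)]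
          norm_num
        rw [h4]
        push_cast
        ring
      rw [h1, h3]
      simp
  have hmain := main_ineq (ff α) (2 * d) (mellin_ff α) T hsign
  rw [hTc, Nat.cast_ofNat] at hmain
  have hl := l1_ff h2 α
  exact few_num (d : ℝ) _ (by exact_mod_cast h16) hmain hl

end

end PA15
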