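import Pool.Agent.LibPA15.D

/-!
# LibPA15/E: the case `b ≠ ± a`: choice of the prime
-/

set_option autoImplicit false

namespace PA15

open Finset

lemma pow_ne_of (a b : ℤ) (hab : a ≠ b) (hab' : a ≠ -b) (m : ℕ) (hm : 1 ≤ m) :
    b ^ (4 * m) ≠ a ^ (4 * m) := by
  intro h
  have h1 : (b.natAbs) ^ (4 * m) = (a.natAbs) ^ (4 * m) := by
    rw [← Int.natAbs_pow, ← Int.natAbs_pow, h]
  have h2 : b.natAbs = a.natAbs := Nat.pow_left_injective (by omega : 4 * m ≠ 0) h1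
  rcases Int.natAbs_eq_natAbs_iff.1 h2 with h3 | h3
  · exact hab h3.symm
  · apply hab'
    rw [h3, neg_neg]

lemma pow_lt_of (a b : ℤ) (hb : b ≠ 0) (m : ℕ) (hm : m ≤ 19) :
    (b ^ (4 * m) - a ^ (4 * m)).natAbs ≤ (a.natAbs + b.natAbs) ^ 76 := by
  have h1 : (b ^ (4 * m) - a ^ (4 * m)).natAbs ≤ a.natAbs ^ (4 * m) + b.natAbs ^ (4 * m) := by
    have := Int.natAbs_sub_le (b ^ (4 * m)) (a ^ (4 * m))
    rw [Int.natAbs_pow, Int.natAbs_pow] at this
    omega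
  have hbpos : 1 ≤ b.natAbs := Int.natAbs_pos.2 hb
  rcases Nat.eq_zero_or_pos m with h0 | h0
  · subst h0
    have : (b ^ (4 * 0) - a ^ (4 * 0)).natAbs = 0 := by simp
    rw [this]; exact Nat.zero_le _
  have h2 : a.natAbs ^ (4 * m) + b.natAbs ^ (4 * m) ≤ (a.natAbs + b.natAbs) ^ (4 * m) :=
    pow_add_pow_le (Nat.zero_le _) (Nat.zero_le _) (by omega)
  have h3 : (a.natAbs + b.natAbs) ^ (4 * m) ≤ (a.natAbs + b.natAbs) ^ 76 :=
    Nat.pow_le_pow_right (by omega) (by omega)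
  omega

/-- a prime `d > L` such that `a b L!² = 1` modulo `d` -/
lemma exists_prime_sq (a b : ℤ) (ha : a ≠ 0) (hb : b ≠ 0) (L : ℕ) (hL : 2 ≤ L) :
    ∃ d : ℕ, d.Prime ∧ L < d ∧ (d : ℤ) ∣ 1 - a * b * (L.factorial : ℤ) ^ 2 := by
  have hab : a * b ≠ 0 := mul_ne_zero ha hb
  have hf : (2 : ℤ) ≤ L.factorial := by
    have : 2 ≤ L.factorial := le_trans hL (Nat.self_le_factorial L)
    exact_mod_cast this
  have hne : (1 - a * b * (L.factorial : ℤ) ^ 2).natAbs ≠ 1 := by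
    intro h
    have h1 : (4 : ℤ) ≤ (L.factorial : ℤ) ^ 2 := by nlinarith
    rcases Int.natAbs_eq (1 - a * b * (L.factorial : ℤ) ^ 2) with h2 | h2 <;> rw [h] at h2
    · have h3 : a * b * (L.factorial : ℤ) ^ 2 = 0 := by push_cast at h2; linarith
      rcases mul_eq_zero.1 h3 with h4 | h4
      · exact hab h4
      · nlinarith
    · have h3 : a * b * (L.factorial : ℤ) ^ 2 = 2 := by push_cast at h2; linarith
      rcases lt_or_gt_of_ne hab with h4 | h4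
      · nlinarith
      · nlinarith
  obtain ⟨d, hd, hdvd⟩ := Nat.exists_prime_and_dvd hne
  refine ⟨d, hd, ?_, Int.natCast_dvd.2 hdvd⟩
  by_contra hle
  push Not at hle
  have h1 : d ∣ L.factorial := (Nat.Prime.dvd_factorial hd).2 hle
  have h2 : (d : ℤ) ∣ a * b * (L.factorial : ℤ) ^ 2 :=
    Dvd.dvd.mul_left (dvd_pow (Int.natCast_dvd_natCast.2 h1) two_ne_zero) _
  have h3 : (d : ℤ) ∣ 1 := by
    have := dvd_add (Int.natCast_dvd.2 hdvd) h2
    simpa using this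
  have h4 : d ∣ 1 := by exact_mod_cast h3
  exact hd.one_lt.ne' (Nat.dvd_one.1 h4)

/-- the conclusion of the local lemma for a pair -/
def Pair (a b : ℤ) (d : ℕ) : Prop :=
  ∃ _ : Fact d.Prime, 16 ≤ d ∧ ¬ (d : ℤ) ∣ a ∧ ¬ (d : ℤ) ∣ b ∧ ∃ y z : (ZMod d)ˣ, IsSquare (y * z) ∧
    y ≠ -z ∧ Kr d ((a : ZMod d) * (y : ZMod d) ^ 2) * Kr d ((b : ZMod d) * (y : ZMod d) ^ 2) *
      (Kr d ((a : ZMod d) * (z : ZMod d) ^ 2) * Kr d ((b : ZMod d) * (z : ZMod d) ^ 2)) < 0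

theorem core2_ne (a b : ℤ) (ha : a ≠ 0) (hb : b ≠ 0) (hab : a ≠ b) (hab' : a ≠ -b) :
    ∃ d : ℕ, Pair a b d := by
  set L : ℕ := (a.natAbs + b.natAbs) ^ 76 + 16 with hL
  obtain ⟨d, hd, hLd, hdvd⟩ := exists_prime_sq a b ha hb L (by omega)
  have hfact : Fact d.Prime := ⟨hd⟩
  have h1 : (1 : ZMod d) - (a : ZMod d) * b * ((L.factorial : ℕ) : ZMod d) ^ 2 = 0 := by
    have := (ZMod.intCast_zmod_eq_zero_iff_dvd _ d).2 hdvd
    push_cast at this
    exact this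
  have hrel : (a : ZMod d) * b * ((L.factorial : ℕ) : ZMod d) ^ 2 = 1 := by
    linear_combination -h1
  have ha0 : (a : ZMod d) ≠ 0 := by
    intro h; rw [h] at hrel; simp at hrel
  have hb0 : (b : ZMod d) ≠ 0 := by
    intro h; rw [h] at hrel; simp at hrel
  have hl0 : ((L.factorial : ℕ) : ZMod d) ≠ 0 := by
    intro h; rw [h] at hrel; simp at hrel
  set A : (ZMod d)ˣ := Units.mk0 _ ha0 with hA
  set Λ : (ZMod d)ˣ := Units.mk0 _ hl0 with hΛ
  set τ : (ZMod d)ˣ := (A * Λ)⁻¹ with hτ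
  have hτval : (τ : ZMod d) = ((a : ZMod d) * ((L.factorial : ℕ) : ZMod d))⁻¹ := by
    rw [hτ, Units.val_inv_eq_inv_val, Units.val_mul]
    rfl
  have hbt : (b : ZMod d) = (a : ZMod d) * (τ : ZMod d) ^ 2 := by
    rw [hτval]
    field_simp
    linear_combination hrel
  refine ⟨d, hfact, by omega, ?_, ?_, ?_⟩
  · intro h; exact ha0 ((ZMod.intCast_zmod_eq_zero_iff_dvd _ d).2 h)
  · intro h; exact hb0 ((ZMod.intCast_zmod_eq_zero_iff_dvd _ d).2 h)
  by_contra hcon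
  push Not at hcon
  have hAv : (A : ZMod d) = (a : ZMod d) := rfl
  have hB : ∀ y : (ZMod d)ˣ, (b : ZMod d) * (y : ZMod d) ^ 2 =
      (A : ZMod d) * ((τ * y : (ZMod d)ˣ) : ZMod d) ^ 2 := by
    intro y
    rw [hAv, Units.val_mul, hbt]; ring
  have hall : ∀ y z : (ZMod d)ˣ, IsSquare (y * z) →
      0 < (Kr d ((A : ZMod d) * (y : ZMod d) ^ 2) * Kr d ((A : ZMod d) * ((τ * y : (ZMod d)ˣ) : ZMod d) ^ 2)) *
        (Kr d ((A : ZMod d) * (z : ZMod d) ^ 2) * Kr d ((A : ZMod d) * ((τ * z : (ZMod d)ˣ) : ZMod d) ^ 2)) := by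
    intro y z hyz
    have p1 := Kr_ne_zero ((A : ZMod d) * (y : ZMod d) ^ 2)
    have p2 := Kr_ne_zero ((A : ZMod d) * ((τ * y : (ZMod d)ˣ) : ZMod d) ^ 2)
    have p3 := Kr_ne_zero ((A : ZMod d) * (z : ZMod d) ^ 2)
    have p4 := Kr_ne_zero ((A : ZMod d) * ((τ * z : (ZMod d)ˣ) : ZMod d) ^ 2)
    by_cases hneg : y = -z
    · have e1 : (y : ZMod d) ^ 2 = (z : ZMod d) ^ 2 := by rw [hneg, Units.val_neg]; ring
      have e2 : ((τ * y : (ZMod d)ˣ) : ZMod d) ^ 2 = ((τ * z : (ZMod d)ˣ) : ZMod d) ^ 2 := by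
        rw [hneg, Units.val_mul, Units.val_mul, Units.val_neg]; ring
      rw [e1, e2]
      exact mul_self_pos.2 (mul_ne_zero p3 p4)
    · have h := hcon y z hyz hneg
      rw [hB y, hB z, ← hAv] at h
      exact lt_of_le_of_ne h (mul_ne_zero (mul_ne_zero p1 p2) (mul_ne_zero p3 p4)).symm
  refine few_shifts (by omega) A (τ ^ 4) (inv_four A τ hall) ?_
  have key : ∀ i < 20, ∀ j < 20, i < j → ((τ ^ 4) ^ 2) ^ i = ((τ ^ 4) ^ 2) ^ j → False := by
    intro i hi j hj hij h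
    obtain ⟨m, rfl⟩ := Nat.exists_eq_add_of_lt hij
    set m' := m + 1 with hm'
    have h3 : i + m + 1 = i + m' := by omega
    rw [h3, pow_add] at h
    have h4 : ((τ ^ 4) ^ 2) ^ m' = 1 := by
      have : ((τ ^ 4) ^ 2) ^ i * 1 = ((τ ^ 4) ^ 2) ^ i * ((τ ^ 4) ^ 2) ^ m' := by rw [mul_one]; exact h
      exact (mul_left_cancel this).symm
    have h5 : ((τ : ZMod d) ^ 2) ^ (4 * m') = 1 := by
      have := congrArg (fun u : (ZMod d)ˣ => (u : ZMod d)) h4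
      simp only [Units.val_pow_eq_pow_val, Units.val_one] at this
      rw [← this, ← pow_mul, ← pow_mul, ← pow_mul]
      congr 1
      ring
    have h6 : (b : ZMod d) ^ (4 * m') = (a : ZMod d) ^ (4 * m') := by
      rw [hbt, mul_pow, h5, mul_one]
    have h7 : (d : ℤ) ∣ b ^ (4 * m') - a ^ (4 * m') := by
      rw [← ZMod.intCast_zmod_eq_zero_iff_dvd]
      push_cast
      rw [h6, sub_self]
    have h8 := pow_ne_of a b hab hab' m' (by omega)
    have h9 := pow_lt_of a b hb m' (by omega)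
    have h10 : d ∣ (b ^ (4 * m') - a ^ (4 * m')).natAbs := Int.natCast_dvd.1 h7
    have h11 := Nat.le_of_dvd (Int.natAbs_pos.2 (sub_ne_zero.2 h8)) h10
    omega
  intro i hi j hj h
  rcases lt_trichotomy i j with hij | hij | hij
  · exact (key i hi j hj hij h).elim
  · exact hij
  · exact (key j hj i hi hij h.symm).elim

end PA15
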