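import Pool.Agent.LibPA15.E

/-!
# LibPA15/F: the case `b = - a`: for `d ≡ 3 mod 4` the product `K(a t) K(- a t)` takes both signs
-/

set_option autoImplicit false

namespace PA15

open Finset

section
variable {d : ℕ} [Fact d.Prime]

lemma neg_one_ne (h3 : d % 4 = 3) (x : ZMod d) : x * x ≠ -1 := by
  intro h
  have h1 : IsSquare (-1 : ZMod d) := ⟨x, h.symm⟩
  have := ZMod.mod_four_ne_three_of_sq_eq_neg_one (p := d) (y := x) (by rw [pow_two, h])
  exact this h3

/-- opening the product -/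
lemma sumF (a : ZMod d) (k : ZMod d) :
    ∑ t : ZMod d, Kloo.K d (a * t) * Kloo.K d (-a * t) * ZMod.stdAddChar (k * t) =
      (d : ℂ) * ∑ p ∈ (univ : Finset ((ZMod d)ˣ × (ZMod d)ˣ)).filter
        (fun p => a * ((p.1 : ZMod d) - (p.2 : ZMod d)) + k = 0),
        ZMod.stdAddChar (((p.1⁻¹ : (ZMod d)ˣ) : ZMod d) + ((p.2⁻¹ : (ZMod d)ˣ) : ZMod d)) := by
  classical
  have e1 : ∀ t : ZMod d, Kloo.K d (a * t) * Kloo.K d (-a * t) * ZMod.stdAddChar (k * t) =
      ∑ p : (ZMod d)ˣ × (ZMod d)ˣ,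
        ZMod.stdAddChar (((p.1⁻¹ : (ZMod d)ˣ) : ZMod d) + ((p.2⁻¹ : (ZMod d)ˣ) : ZMod d)) *
        (ZMod.stdAddChar ((a * ((p.1 : ZMod d) - (p.2 : ZMod d)) + k) * t) : ℂ) := by
    intro t
    unfold Kloo.K
    rw [sum_mul_sum, ← Finset.sum_product', univ_product_univ, sum_mul]
    refine sum_congr rfl fun p _ => ?_
    rw [← AddChar.map_add_eq_mul, ← AddChar.map_add_eq_mul, ← AddChar.map_add_eq_mul]
    congr 1
    ring
  rw [sum_congr rfl fun t _ => e1 t, sum_comm, mul_sum, sum_filter]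
  refine sum_congr rfl fun p _ => ?_
  rw [← mul_sum]
  by_cases h : a * ((p.1 : ZMod d) - (p.2 : ZMod d)) + k = 0
  · rw [if_pos h, h]
    have h0 : ∑ t : ZMod d, (ZMod.stdAddChar (0 * t) : ℂ) = d := by
      simp only [zero_mul, AddChar.map_zero_eq_one, sum_const, card_univ, ZMod.card, nsmul_eq_mul,
        mul_one]
    rw [h0, mul_comm]
  · rw [if_neg h, Kloo.sum_psi_zero _ h, mul_zero]

lemma sumF_zero (h2 : d ≠ 2) (a : ZMod d) (ha : a ≠ 0) :
    ∑ t : ZMod d, Kloo.K d (a * t) * Kloo.K d (-a * t) = -(d : ℂ) := by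
  classical
  have hp : d.Prime := Fact.out
  have h := sumF a 0
  simp only [zero_mul, AddChar.map_zero_eq_one, mul_one, add_zero] at h
  rw [h]
  have h20 : (2 : ZMod d) ≠ 0 := by
    intro h
    have h1 : ((2 : ℕ) : ZMod d) = 0 := by exact_mod_cast h
    rw [ZMod.natCast_eq_zero_iff] at h1
    exact h2 ((Nat.prime_dvd_prime_iff_eq hp Nat.prime_two).1 h1)
  have e : ∑ p ∈ (univ : Finset ((ZMod d)ˣ × (ZMod d)ˣ)).filter
        (fun p => a * ((p.1 : ZMod d) - (p.2 : ZMod d)) = 0),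
        (ZMod.stdAddChar (((p.1⁻¹ : (ZMod d)ˣ) : ZMod d) + ((p.2⁻¹ : (ZMod d)ˣ) : ZMod d)) : ℂ) =
      ∑ u : (ZMod d)ˣ, (ZMod.stdAddChar (2 * (u : ZMod d)) : ℂ) := by
    symm
    refine sum_bij (fun u _ => (u⁻¹, u⁻¹)) ?_ ?_ ?_ ?_
    · intro u _
      rw [mem_filter]
      refine ⟨mem_univ _, ?_⟩
      rw [sub_self, mul_zero]
    · intro u _ v _ h
      exact inv_injective (Prod.mk.inj h).1
    · intro p hp
      rw [mem_filter] at hp
      have h1 := (mul_eq_zero.1 hp.2).resolve_left ha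
      have h2 : p.1 = p.2 := Units.ext (sub_eq_zero.1 h1)
      exact ⟨p.1⁻¹, mem_univ _, by rw [inv_inv]; exact Prod.ext rfl h2⟩
    · intro u _
      rw [inv_inv, two_mul]
  rw [e]
  have h3 := Kloo.sum_psi_zero (2 : ZMod d) h20
  rw [Kloo.sum_units_eq, mul_zero, AddChar.map_zero_eq_one] at h3
  have h4 : ∑ u : (ZMod d)ˣ, (ZMod.stdAddChar (2 * (u : ZMod d)) : ℂ) = -1 := by
    linear_combination h3
  rw [h4, mul_neg, mul_one]

/-- the set `x ≠ ± 1` -/
noncomputable def WW (d : ℕ) [NeZero d] : Finset (ZMod d) := by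
  classical
  exact univ.filter fun x : ZMod d => x ≠ 1 ∧ x ≠ -1

lemma mem_WW (x : ZMod d) : x ∈ WW d ↔ x ≠ 1 ∧ x ≠ -1 := by
  unfold WW
  simp

/-- `ψ(x) = 4 x / (x² - 1)` -/
def psx (x : ZMod d) : ZMod d := 4 * x * (x * x - 1)⁻¹

lemma sumF_ne (h2 : d ≠ 2) (a : ZMod d) (ha : a ≠ 0) (l : ZMod d) (hl : l ≠ 0) :
    ∑ t : ZMod d, Kloo.K d (a * t) * Kloo.K d (-a * t) * ZMod.stdAddChar ((-a * l⁻¹) * t) =
      (d : ℂ) * ∑ x ∈ WW d, ZMod.stdAddChar (l * psx x) := by
  classical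
  have hp : d.Prime := Fact.out
  have h20 : (2 : ZMod d) ≠ 0 := by
    intro h
    have h1 : ((2 : ℕ) : ZMod d) = 0 := by exact_mod_cast h
    rw [ZMod.natCast_eq_zero_iff] at h1
    exact h2 ((Nat.prime_dvd_prime_iff_eq hp Nat.prime_two).1 h1)
  rw [sumF]
  congr 1
  symm
  have hx1 : ∀ x ∈ WW d, l⁻¹ * (x + 1) * 2⁻¹ ≠ 0 := by
    intro x hx
    rw [mem_WW] at hx
    refine mul_ne_zero (mul_ne_zero (inv_ne_zero hl) ?_) (inv_ne_zero h20)
    intro h; exact hx.2 (eq_neg_of_add_eq_zero_left h)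
  have hx2 : ∀ x ∈ WW d, l⁻¹ * (x - 1) * 2⁻¹ ≠ 0 := by
    intro x hx
    rw [mem_WW] at hx
    refine mul_ne_zero (mul_ne_zero (inv_ne_zero hl) ?_) (inv_ne_zero h20)
    exact sub_ne_zero.2 hx.1
  refine sum_bij (fun x hx => (Units.mk0 _ (hx1 x hx), Units.mk0 _ (hx2 x hx))) ?_ ?_ ?_ ?_
  · intro x hx
    rw [mem_filter]
    refine ⟨mem_univ _, ?_⟩
    simp only [Units.val_mk0]
    field_simp
    ring
  · intro x hx y hy h
    have h1 := congrArg (fun p : (ZMod d)ˣ × (ZMod d)ˣ => (p.1 : ZMod d)) h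
    simp only [Units.val_mk0] at h1
    have h3 : l⁻¹ * 2⁻¹ * (x - y) = 0 := by linear_combination h1
    exact sub_eq_zero.1 ((mul_eq_zero.1 h3).resolve_left
      (mul_ne_zero (inv_ne_zero hl) (inv_ne_zero h20)))
  · intro p hp'
    rw [mem_filter] at hp'
    obtain ⟨-, h⟩ := hp'
    have h1 : (p.1 : ZMod d) - (p.2 : ZMod d) = l⁻¹ := by
      have : a * ((p.1 : ZMod d) - (p.2 : ZMod d) - l⁻¹) = 0 := by linear_combination h
      exact sub_eq_zero.1 ((mul_eq_zero.1 this).resolve_left ha)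
    have hxx : l * ((p.1 : ZMod d) + (p.2 : ZMod d)) ∈ WW d := by
      rw [mem_WW]
      constructor
      · intro h5
        have h6 : (p.1 : ZMod d) + (p.2 : ZMod d) = l⁻¹ := eq_inv_of_mul_eq_one_right h5
        have h7 : 2 * (p.2 : ZMod d) = 0 := by linear_combination h6 - h1
        exact p.2.ne_zero ((mul_eq_zero.1 h7).resolve_left h20)
      · intro h5
        have h6 : (p.1 : ZMod d) + (p.2 : ZMod d) = -l⁻¹ := by
          have : l * (-((p.1 : ZMod d) + (p.2 : ZMod d))) = 1 := by linear_combination -h5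
          have := eq_inv_of_mul_eq_one_right this
          linear_combination -this
        have h7 : 2 * (p.1 : ZMod d) = 0 := by linear_combination h6 + h1
        exact p.1.ne_zero ((mul_eq_zero.1 h7).resolve_left h20)
    refine ⟨_, hxx, ?_⟩
    have hll : l⁻¹ * l = 1 := inv_mul_cancel₀ hl
    have h22 : (2 : ZMod d) * 2⁻¹ = 1 := mul_inv_cancel₀ h20
    refine Prod.ext (Units.ext ?_) (Units.ext ?_)
    · rw [Units.val_mk0]
      linear_combination ((p.1 : ZMod d) + (p.2 : ZMod d)) * 2⁻¹ * hll - 2⁻¹ * h1 +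
        (p.1 : ZMod d) * h22
    · rw [Units.val_mk0]
      linear_combination ((p.1 : ZMod d) + (p.2 : ZMod d)) * 2⁻¹ * hll + 2⁻¹ * h1 +
        (p.2 : ZMod d) * h22
  · intro x hx
    have hx' := (mem_WW x).1 hx
    have n1 : x + 1 ≠ 0 := fun h => hx'.2 (eq_neg_of_add_eq_zero_left h)
    have n2 : x - 1 ≠ 0 := sub_ne_zero.2 hx'.1
    have n3 : x * x - 1 ≠ 0 := by
      have : x * x - 1 = (x + 1) * (x - 1) := by ring
      rw [this]; exact mul_ne_zero n1 n2
    congr 1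
    rw [Units.val_inv_eq_inv_val, Units.val_inv_eq_inv_val, Units.val_mk0, Units.val_mk0]
    unfold psx
    have n3' : x * x - 1 = (x + 1) * (x - 1) := by ring
    rw [n3']
    field_simp
    ring

lemma psx_inv (x : ZMod d) (hx : x ≠ 0) (h1 : x * x - 1 ≠ 0) : psx (-x⁻¹) = psx x := by
  unfold psx
  have h2 : -x⁻¹ * -x⁻¹ - 1 ≠ 0 := by
    intro h
    apply h1
    have : x * x * (-x⁻¹ * -x⁻¹ - 1) = 0 := by rw [h, mul_zero]
    have h3 : x * x⁻¹ = 1 := mul_inv_cancel₀ hx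
    linear_combination -this + (x * x⁻¹ + 1) * h3
  rw [← div_eq_mul_inv, ← div_eq_mul_inv, div_eq_div_iff h2 h1]
  field_simp
  ring

/-- there is a frequency with a large sum -/
theorem exists_large (h3 : d % 4 = 3) (h7 : 7 ≤ d) :
    ∃ l : ZMod d, l ≠ 0 ∧ ((d : ℝ) - 1) ≤ ‖∑ x ∈ WW d, (ZMod.stdAddChar (l * psx x) : ℂ)‖ ^ 2 := by
  classical
  have hp : d.Prime := Fact.out
  by_contra hcon
  push Not at hcon
  set N := #((WW d ×ˢ WW d).filter fun p => psx p.1 - psx p.2 = 0) with hN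
  have hWc : (#(WW d) : ℝ) = d - 2 := by
    have h1 : WW d = univ \ {1, -1} := by
      ext x
      rw [mem_WW]
      simp
    have h2 : (1 : ZMod d) ≠ -1 := by
      intro h
      exact neg_one_ne h3 1 (by rw [mul_one]; exact h)
    rw [h1, card_sdiff_of_subset (subset_univ _), card_univ, ZMod.card, card_pair h2, Nat.cast_sub (by omega)]
    norm_num
  have hS : ∑ l : ZMod d, ‖∑ x ∈ WW d, (ZMod.stdAddChar (l * psx x) : ℂ)‖ ^ 2 = (d : ℝ) * N := by
    have e1 : ∀ l : ZMod d, ((‖∑ x ∈ WW d, (ZMod.stdAddChar (l * psx x) : ℂ)‖ ^ 2 : ℝ) : ℂ) =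
        ∑ p ∈ WW d ×ˢ WW d, (ZMod.stdAddChar ((psx p.1 - psx p.2) * l) : ℂ) := by
      intro l
      rw [← Complex.normSq_eq_norm_sq, ← Complex.mul_conj, map_sum, sum_mul_sum,
        ← Finset.sum_product']
      refine sum_congr rfl fun p _ => ?_
      rw [← AddChar.map_neg_eq_conj, ← AddChar.map_add_eq_mul]
      congr 1
      ring
    have e2 : ((∑ l : ZMod d, ‖∑ x ∈ WW d, (ZMod.stdAddChar (l * psx x) : ℂ)‖ ^ 2 : ℝ) : ℂ) =
        (d : ℂ) * N := by
      rw [Complex.ofReal_sum, sum_congr rfl fun l _ => e1 l, sum_comm]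
      have e3 : ∀ p ∈ WW d ×ˢ WW d, ∑ l : ZMod d, (ZMod.stdAddChar ((psx p.1 - psx p.2) * l) : ℂ) =
          if psx p.1 - psx p.2 = 0 then (d : ℂ) else 0 := by
        intro p _
        by_cases h : psx p.1 - psx p.2 = 0
        · rw [if_pos h, h]
          simp only [zero_mul, AddChar.map_zero_eq_one, sum_const, card_univ, ZMod.card,
            nsmul_eq_mul, mul_one]
        · rw [if_neg h]
          exact Kloo.sum_psi_zero _ h
      rw [sum_congr rfl e3, ← sum_filter, sum_const, nsmul_eq_mul, mul_comm]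
    exact_mod_cast e2
  have hNl : 2 * (d : ℝ) - 5 ≤ N := by
    have hx0 : ∀ x ∈ WW d, x * x - 1 ≠ 0 := by
      intro x hx
      rw [mem_WW] at hx
      have : x * x - 1 = (x + 1) * (x - 1) := by ring
      rw [this]
      exact mul_ne_zero (fun h => hx.2 (eq_neg_of_add_eq_zero_left h)) (sub_ne_zero.2 hx.1)
    set A := (WW d).image fun x => (x, x) with hA
    set B := ((WW d).erase 0).image fun x => (x, -x⁻¹) with hB
    have hAc : #A = #(WW d) := by
      rw [hA, card_image_of_injective _ (fun v w h => (Prod.mk.inj h).1)]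
    have h0W : (0 : ZMod d) ∈ WW d := by
      rw [mem_WW]
      exact ⟨zero_ne_one, fun h => one_ne_zero (neg_eq_zero.1 h.symm)⟩
    have hBc : #B = #(WW d) - 1 := by
      rw [hB, card_image_of_injective _ (fun v w h => (Prod.mk.inj h).1), card_erase_of_mem h0W]
    have hdisj : Disjoint A B := by
      rw [disjoint_left]
      intro p hpA hpB
      obtain ⟨x, hx, rfl⟩ := mem_image.1 hpA
      obtain ⟨y, hy, hxy⟩ := mem_image.1 hpB
      have h1 := (Prod.mk.inj hxy).1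
      have h2 := (Prod.mk.inj hxy).2
      subst h1
      have hy0 : y ≠ 0 := (mem_erase.1 hy).1
      have h4 : y * y⁻¹ = 1 := mul_inv_cancel₀ hy0
      exact neg_one_ne h3 y (by linear_combination -y * h2 - h4)
    have hsub : A ∪ B ⊆ (WW d ×ˢ WW d).filter fun p => psx p.1 - psx p.2 = 0 := by
      intro p hp
      rw [mem_filter, mem_product]
      rcases mem_union.1 hp with h | h
      · obtain ⟨x, hx, rfl⟩ := mem_image.1 h
        exact ⟨⟨hx, hx⟩, sub_self _⟩
      · obtain ⟨x, hx, rfl⟩ := mem_image.1 h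
        have hx' := mem_erase.1 hx
        refine ⟨⟨hx'.2, ?_⟩, ?_⟩
        · have hxW := (mem_WW x).1 hx'.2
          have h4 : x * x⁻¹ = 1 := mul_inv_cancel₀ hx'.1
          rw [mem_WW]
          constructor
          · intro h5
            exact hxW.2 (by linear_combination -x * h5 - h4)
          · intro h5
            exact hxW.1 (by linear_combination x * h5 + h4)
        · rw [psx_inv x hx'.1 (hx0 x hx'.2), sub_self]
    have h5 := card_le_card hsub
    rw [card_union_of_disjoint hdisj, hAc, hBc] at h5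
    have hW1 : 1 ≤ #(WW d) := card_pos.2 ⟨0, h0W⟩
    have h6 : ((#(WW d) + (#(WW d) - 1) : ℕ) : ℝ) ≤ N := by exact_mod_cast h5
    rw [Nat.cast_add, Nat.cast_sub hW1, hWc, Nat.cast_one] at h6
    linarith
  have hd : (7 : ℝ) ≤ d := by exact_mod_cast h7
  -- upper bound
  have hup : ∑ l : ZMod d, ‖∑ x ∈ WW d, (ZMod.stdAddChar (l * psx x) : ℂ)‖ ^ 2 ≤
      ((d : ℝ) - 2) ^ 2 + (d - 1) * (d - 1) := by
    rw [← Finset.add_sum_erase univ _ (mem_univ (0 : ZMod d))]
    apply add_le_add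
    · have : ∑ x ∈ WW d, (ZMod.stdAddChar ((0 : ZMod d) * psx x) : ℂ) = ((#(WW d) : ℝ) : ℂ) := by
        simp only [zero_mul, AddChar.map_zero_eq_one, sum_const, nsmul_eq_mul, mul_one]
        norm_num
      rw [this, Complex.norm_real, hWc, Real.norm_eq_abs, sq_abs]
    · calc ∑ l ∈ univ.erase (0 : ZMod d), ‖∑ x ∈ WW d, (ZMod.stdAddChar (l * psx x) : ℂ)‖ ^ 2
          ≤ ∑ _l ∈ univ.erase (0 : ZMod d), ((d : ℝ) - 1) :=
            sum_le_sum fun l hl => (hcon l (mem_erase.1 hl).1).le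
        _ = (d - 1) * (d - 1) := by
            rw [sum_const, nsmul_eq_mul, card_erase_of_mem (mem_univ _), card_univ, ZMod.card,
              Nat.cast_sub hp.one_le, Nat.cast_one]
  rw [hS] at hup
  nlinarith

end

end PA15
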