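import Pool.Agent.LibPA15.F

/-!
# LibPA15/G: the pair `a, - a`
-/

set_option autoImplicit false

namespace PA15

open Finset

section
variable {d : ℕ} [Fact d.Prime]

/-- the product `K(a t) K(-a t)` takes both signs -/
theorem exists_signs (h3 : d % 4 = 3) (h7 : 16 ≤ d) (a : ZMod d) (ha : a ≠ 0) :
    ∃ s t : (ZMod d)ˣ, (Kr d (a * s) * Kr d (-a * s)) * (Kr d (a * t) * Kr d (-a * t)) < 0 := by
  classical
  have hp : d.Prime := Fact.out
  by_contra hcon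
  push Not at hcon
  set κ : (ZMod d)ˣ → ℝ := fun t => Kr d (a * t) * Kr d (-a * t) with hκ
  have hd : (16 : ℝ) ≤ d := by exact_mod_cast h7
  have hK0 : Kloo.K d 0 = -1 := by
    unfold Kloo.K
    have h := Kloo.sum_psi_zero (1 : ZMod d) one_ne_zero
    rw [Kloo.sum_units_eq] at h
    simp only [one_mul, AddChar.map_zero_eq_one] at h
    have h2 : ∑ u : (ZMod d)ˣ, (ZMod.stdAddChar (0 * (u : ZMod d) + ((u⁻¹ : (ZMod d)ˣ) : ZMod d)) : ℂ) =
        ∑ u : (ZMod d)ˣ, (ZMod.stdAddChar (u : ZMod d) : ℂ) := by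
      refine Fintype.sum_equiv (Equiv.inv _) _ _ fun u => ?_
      rw [Equiv.inv_apply, zero_mul, zero_add]
    rw [h2]
    linear_combination h
  -- sums over the units
  have hsum : ∀ k : ZMod d, ∑ t : ZMod d, Kloo.K d (a * t) * Kloo.K d (-a * t) *
      ZMod.stdAddChar (k * t) = 1 + ∑ t : (ZMod d)ˣ, (κ t : ℂ) * ZMod.stdAddChar (k * (t : ZMod d)) := by
    intro k
    rw [Kloo.sum_units_eq]
    congr 1
    · rw [mul_zero, mul_zero, mul_zero, hK0, AddChar.map_zero_eq_one]; ring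
    · refine sum_congr rfl fun t _ => ?_
      rw [K_eq, K_eq, hκ]
      push_cast
      ring
  have h0 : ∑ t : (ZMod d)ˣ, κ t = -(d : ℝ) - 1 := by
    have h1 := hsum 0
    simp only [zero_mul, AddChar.map_zero_eq_one, mul_one] at h1
    rw [sumF_zero (by omega) a ha] at h1
    have h2 : ((∑ t : (ZMod d)ˣ, κ t : ℝ) : ℂ) = ((-(d : ℝ) - 1 : ℝ) : ℂ) := by
      push_cast
      linear_combination -h1
    exact_mod_cast h2
  -- all signs are equal, hence `∑ |κ| = d + 1`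
  have habs : ∑ t : (ZMod d)ˣ, |κ t| = (d : ℝ) + 1 := by
    have hne : ∀ t, κ t ≠ 0 := fun t => mul_ne_zero (Kr_ne_zero _) (Kr_ne_zero _)
    by_cases h : ∀ t, κ t ≤ 0
    · rw [sum_congr rfl fun t _ => abs_of_nonpos (h t), sum_neg_distrib, h0]
      ring
    · push Not at h
      obtain ⟨s, hs⟩ := h
      have h2 : ∀ t, 0 ≤ κ t := fun t => by
        have := hcon s t
        by_contra hlt
        push Not at hlt
        exact absurd (mul_neg_of_pos_of_neg hs hlt) (not_lt.2 this)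
      have h3 : 0 ≤ ∑ t : (ZMod d)ˣ, κ t := sum_nonneg fun t _ => h2 t
      rw [h0] at h3
      linarith
  obtain ⟨l, hl, hbig⟩ := exists_large h3 (by omega : 7 ≤ d)
  have h1 := sumF_ne (by omega : d ≠ 2) a ha l hl
  rw [hsum] at h1
  have h4 : ‖(d : ℂ) * ∑ x ∈ WW d, (ZMod.stdAddChar (l * psx x) : ℂ)‖ ≤ 1 + ((d : ℝ) + 1) := by
    rw [← h1]
    refine (norm_add_le _ _).trans ?_
    rw [norm_one]
    refine add_le_add le_rfl ?_
    rw [← habs]
    refine (norm_sum_le _ _).trans (sum_le_sum fun t _ => ?_)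
    rw [norm_mul, Complex.norm_real, Real.norm_eq_abs]
    have h5 : ‖(ZMod.stdAddChar (-a * l⁻¹ * (t : ZMod d)) : ℂ)‖ = 1 := by
      rw [ZMod.stdAddChar_apply]; exact Circle.norm_coe _
    rw [h5, mul_one]
  rw [norm_mul, Complex.norm_natCast] at h4
  set n := ‖∑ x ∈ WW d, (ZMod.stdAddChar (l * psx x) : ℂ)‖ with hn
  have hn0 : 0 ≤ n := norm_nonneg _
  have h6 : n ≤ 2 := by
    by_contra h
    push Not at h
    nlinarith
  nlinarith

lemma sq_or (h3 : d % 4 = 3) (t : (ZMod d)ˣ) : ∃ y : (ZMod d)ˣ, t = y ^ 2 ∨ t = -y ^ 2 := by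
  have hF : ringChar (ZMod d) ≠ 2 := by rw [ZMod.ringChar_zmod_n]; omega
  have key : IsSquare (t : ZMod d) ∨ IsSquare (-(t : ZMod d)) := by
    by_contra hcon
    push Not at hcon
    have h1 := quadraticChar_neg_one_iff_not_isSquare.2 hcon.1
    have h2 := quadraticChar_neg_one_iff_not_isSquare.2 hcon.2
    have h4 : quadraticChar (ZMod d) (-1) = -1 := by
      rw [quadraticChar_neg_one hF, ZMod.card, ZMod.χ₄_nat_three_mod_four h3]
    rw [neg_eq_neg_one_mul, map_mul, h4, h1] at h2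
    norm_num at h2
  rcases key with ⟨r, hr⟩ | ⟨r, hr⟩
  · have hr0 : r ≠ 0 := by
      rintro rfl; exact t.ne_zero (by rw [hr, mul_zero])
    refine ⟨Units.mk0 r hr0, Or.inl (Units.ext ?_)⟩
    rw [Units.val_pow_eq_pow_val, Units.val_mk0, hr, pow_two]
  · have hr0 : r ≠ 0 := by
      rintro rfl
      exact t.ne_zero (by rw [← neg_neg (t : ZMod d), hr, mul_zero, neg_zero])
    refine ⟨Units.mk0 r hr0, Or.inr (Units.ext ?_)⟩
    rw [Units.val_neg, Units.val_pow_eq_pow_val, Units.val_mk0, pow_two, ← hr, neg_neg]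

/-- one of `y z`, `- y z` is a square -/
lemma sq_or_neg (h3 : d % 4 = 3) (t : (ZMod d)ˣ) : IsSquare t ∨ IsSquare (-t) := by
  obtain ⟨y, h | h⟩ := sq_or h3 t
  · exact Or.inl ⟨y, by rw [h, pow_two]⟩
  · exact Or.inr ⟨y, by rw [h, neg_neg, pow_two]⟩

end

theorem core2_neg (a : ℤ) (ha : a ≠ 0) : ∃ d : ℕ, Pair a (-a) d := by
  obtain ⟨d, hdgt, hdp, hdm⟩ := Nat.forall_exists_prime_gt_and_modEq (a.natAbs + 16)
    (show (4 : ℕ) ≠ 0 by norm_num) (show Nat.Coprime 3 4 by norm_num)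
  have hfact : Fact d.Prime := ⟨hdp⟩
  have h3 : d % 4 = 3 := hdm
  have hda : ¬ (d : ℤ) ∣ a := by
    intro h
    have := Nat.le_of_dvd (Int.natAbs_pos.2 ha) (Int.natCast_dvd.1 h)
    omega
  have ha0 : (a : ZMod d) ≠ 0 := by
    rw [Ne, ZMod.intCast_zmod_eq_zero_iff_dvd]; exact hda
  refine ⟨d, hfact, by omega, hda, fun h => hda (by rwa [dvd_neg] at h), ?_⟩
  obtain ⟨s, t, hst⟩ := exists_signs h3 (by omega) (a : ZMod d) ha0
  -- values at `± y²`
  have key : ∀ t : (ZMod d)ˣ, ∃ y : (ZMod d)ˣ, Kr d ((a : ZMod d) * t) * Kr d (-(a : ZMod d) * t) =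
      Kr d ((a : ZMod d) * (y : ZMod d) ^ 2) * Kr d (((-a : ℤ) : ZMod d) * (y : ZMod d) ^ 2) := by
    intro t
    obtain ⟨y, h | h⟩ := sq_or h3 t
    · refine ⟨y, ?_⟩
      rw [h, Units.val_pow_eq_pow_val, Int.cast_neg]
    · refine ⟨y, ?_⟩
      rw [h, Units.val_neg, Units.val_pow_eq_pow_val, Int.cast_neg, mul_comm (Kr d _) (Kr d _),
        mul_neg, neg_mul, neg_neg, mul_neg]
  obtain ⟨y, hy⟩ := key s
  obtain ⟨z, hz⟩ := key t
  rw [hy, hz] at hst
  have hne : ∀ w : (ZMod d)ˣ, (w : ZMod d) ^ 2 = (y : ZMod d) ^ 2 → ¬ (Kr d ((a : ZMod d) * (y : ZMod d) ^ 2) *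
      Kr d (((-a : ℤ) : ZMod d) * (y : ZMod d) ^ 2) * (Kr d ((a : ZMod d) * (w : ZMod d) ^ 2) *
      Kr d (((-a : ℤ) : ZMod d) * (w : ZMod d) ^ 2)) < 0) := by
    intro w hw h
    rw [hw] at h
    exact absurd h (not_lt.2 (mul_self_nonneg _))
  rcases sq_or_neg h3 (y * z) with hsq | hsq
  · refine ⟨y, z, hsq, ?_, hst⟩
    rintro rfl
    refine hne z ?_ hst
    rw [Units.val_neg]; ring
  · refine ⟨y, -z, ?_, ?_, ?_⟩
    · rw [mul_neg]; exact hsq
    · rw [neg_neg]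
      rintro rfl
      exact hne y rfl hst
    · have e : ((-z : (ZMod d)ˣ) : ZMod d) ^ 2 = (z : ZMod d) ^ 2 := by rw [Units.val_neg]; ring
      rw [e]
      exact hst

/-- **The local lemma for pairs.** -/
theorem core2 (a b : ℤ) (ha : a ≠ 0) (hb : b ≠ 0) (hab : a ≠ b) : ∃ d : ℕ, Pair a b d := by
  by_cases h : a = -b
  · have h' : b = -a := by rw [h, neg_neg]
    rw [h']
    exact core2_neg a ha
  · exact core2_ne a b ha hb hab h

/-- the local lemma for one integer -/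
def Single (a : ℤ) (d : ℕ) : Prop :=
  ∃ _ : Fact d.Prime, 16 ≤ d ∧ ¬ (d : ℤ) ∣ a ∧ ∃ y z : (ZMod d)ˣ, IsSquare (y * z) ∧
    y ≠ -z ∧ Kr d ((a : ZMod d) * (y : ZMod d) ^ 2) * Kr d ((a : ZMod d) * (z : ZMod d) ^ 2) < 0

end PA15
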