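import Pool.Agent.LibSP15.Defs
import Mathlib

/-!
# LibPA15/J: from the three two-sided theorems (for `a`, `b`, `{a, b}`) to three of the four sign patterns
-/

set_option autoImplicit false

namespace PA15

open Finset Filter Topology SP15

/-- multiplicative functions with values `1`, `-1` -/
def Mult (g : ℕ → ℤ) : Prop := (∀ n, g n = 1 ∨ g n = -1) ∧ ∀ m n : ℕ, m.Coprime n → g (m * n) = g m * g n

open Classical in
/-- both signs of `g(c) ∏ S(h,1;c)` among the `c` with the property `R` -/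
def Both (R : ℕ → Prop) (J : Finset ℤ) : Prop := ∃ η : ℝ, 0 < η ∧ ∀ᶠ X : ℕ in atTop, ∀ g : ℕ → ℤ, Mult g →
  η * X ≤ #((Icc 1 X).filter fun c : ℕ => R c ∧ 0 < (g c : ℝ) * ∏ h ∈ J, Fre h c) ∧
  η * X ≤ #((Icc 1 X).filter fun c : ℕ => R c ∧ (g c : ℝ) * ∏ h ∈ J, Fre h c < 0)

lemma Mult.mul {g h : ℕ → ℤ} (hg : Mult g) (hh : Mult h) : Mult fun n => g n * h n := by
  refine ⟨fun n => ?_, fun m n hmn => ?_⟩
  · rcases hg.1 n with h1 | h1 <;> rcases hh.1 n with h2 | h2 <;> simp [h1, h2]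
  · show g (m * n) * h (m * n) = g m * h m * (g n * h n)
    rw [hg.2 m n hmn, hh.2 m n hmn]
    ring

open Classical in
/-- the pattern count -/
noncomputable def NP (R : ℕ → Prop) (a b : ℤ) (g h : ℕ → ℤ) (X : ℕ) (s t : ℤ) : ℕ :=
  #((Icc 1 X).filter fun c : ℕ => R c ∧ 0 < ((s * g c : ℤ) : ℝ) * Fre a c ∧
    0 < ((t * h c : ℤ) : ℝ) * Fre b c)

open Classical in
theorem three_of_four (R : ℕ → Prop) (a b : ℤ) (hab : a ≠ b) (hne : ∀ (h : ℤ) (c : ℕ), R c → Fre h c ≠ 0)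
    (ha : Both R {a}) (hb : Both R {b}) (hc : Both R {a, b}) :
    ∃ δ : ℝ, 0 < δ ∧ ∀ᶠ X : ℕ in atTop, ∀ g h : ℕ → ℤ, Mult g → Mult h → ∃ s₀ t₀ : ℤ,
      ∀ s t : ℤ, (s = 1 ∨ s = -1) → (t = 1 ∨ t = -1) → (s, t) ≠ (s₀, t₀) →
        δ * X ≤ NP R a b g h X s t := by
  obtain ⟨η₁, h1, H1⟩ := ha
  obtain ⟨η₂, h2, H2⟩ := hb
  obtain ⟨η₃, h3, H3⟩ := hc
  set η := min η₁ (min η₂ η₃) with hη
  have hη0 : 0 < η := lt_min h1 (lt_min h2 h3)
  have le1 : η ≤ η₁ := min_le_left _ _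
  have le2 : η ≤ η₂ := (min_le_right _ _).trans (min_le_left _ _)
  have le3 : η ≤ η₃ := (min_le_right _ _).trans (min_le_right _ _)
  refine ⟨η / 2, by positivity, ?_⟩
  filter_upwards [H1, H2, H3] with X H1 H2 H3
  intro g h hg hh
  obtain ⟨A1, A2⟩ := H1 g hg
  obtain ⟨B1, B2⟩ := H2 h hh
  obtain ⟨C1, C2⟩ := H3 (fun n => g n * h n) (hg.mul hh)
  have hX : (0 : ℝ) ≤ X := Nat.cast_nonneg _
  -- covering
  have cov : ∀ (P : ℕ → Prop) (s t s' t' : ℤ), (∀ c : ℕ, R c → P c →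
      (0 < ((s * g c : ℤ) : ℝ) * Fre a c ∧ 0 < ((t * h c : ℤ) : ℝ) * Fre b c) ∨
      (0 < ((s' * g c : ℤ) : ℝ) * Fre a c ∧ 0 < ((t' * h c : ℤ) : ℝ) * Fre b c)) →
      ((#((Icc 1 X).filter fun c : ℕ => R c ∧ P c) : ℕ) : ℝ) ≤
        NP R a b g h X s t + NP R a b g h X s' t' := by
    intro P s t s' t' hP
    have h4 : #((Icc 1 X).filter fun c : ℕ => R c ∧ P c) ≤
        NP R a b g h X s t + NP R a b g h X s' t' := by
      unfold NP
      refine (card_le_card ?_).trans (card_union_le _ _)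
      intro c hc
      rw [mem_filter] at hc
      rw [mem_union, mem_filter, mem_filter]
      rcases hP c hc.2.1 hc.2.2 with h5 | h5
      · exact Or.inl ⟨hc.1, hc.2.1, h5⟩
      · exact Or.inr ⟨hc.1, hc.2.1, h5⟩
    exact_mod_cast h4
  -- signs
  have sg : ∀ (u : ℤ) (k : ℕ → ℤ), Mult k → ∀ c : ℕ, R c →
      0 < ((1 * k c : ℤ) : ℝ) * Fre u c ∨ 0 < ((-1 * k c : ℤ) : ℝ) * Fre u c := by
    intro u k hk c hcs
    have h5 : ((k c : ℤ) : ℝ) * Fre u c ≠ 0 := by
      refine mul_ne_zero ?_ (hne u c hcs)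
      rcases hk.1 c with h6 | h6 <;> rw [h6] <;> norm_num
    rcases lt_or_gt_of_ne h5 with h6 | h6
    · right
      push_cast
      linarith
    · left
      push_cast
      linarith
  have nx : ∀ (u : ℤ) (k : ℕ → ℤ) (c : ℕ), 0 < ((1 * k c : ℤ) : ℝ) * Fre u c →
      0 < ((-1 * k c : ℤ) : ℝ) * Fre u c → False := by
    intro u k c h5 h6
    push_cast at h5 h6
    linarith
  have k1 : η * X ≤ NP R a b g h X 1 1 + NP R a b g h X 1 (-1) := by
    refine (mul_le_mul_of_nonneg_right le1 hX).trans (A1.trans ?_)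
    refine cov _ 1 1 1 (-1) fun c hcs hP => ?_
    rw [prod_singleton] at hP
    have h5 : 0 < ((1 * g c : ℤ) : ℝ) * Fre a c := by push_cast; linarith
    rcases sg b h hh c hcs with h6 | h6
    · exact Or.inl ⟨h5, h6⟩
    · exact Or.inr ⟨h5, h6⟩
  have k2 : η * X ≤ NP R a b g h X (-1) 1 + NP R a b g h X (-1) (-1) := by
    refine (mul_le_mul_of_nonneg_right le1 hX).trans (A2.trans ?_)
    refine cov _ (-1) 1 (-1) (-1) fun c hcs hP => ?_
    rw [prod_singleton] at hP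
    have h5 : 0 < ((-1 * g c : ℤ) : ℝ) * Fre a c := by push_cast; linarith
    rcases sg b h hh c hcs with h6 | h6
    · exact Or.inl ⟨h5, h6⟩
    · exact Or.inr ⟨h5, h6⟩
  have k3 : η * X ≤ NP R a b g h X 1 1 + NP R a b g h X (-1) 1 := by
    refine (mul_le_mul_of_nonneg_right le2 hX).trans (B1.trans ?_)
    refine cov _ 1 1 (-1) 1 fun c hcs hP => ?_
    rw [prod_singleton] at hP
    have h5 : 0 < ((1 * h c : ℤ) : ℝ) * Fre b c := by push_cast; linarith
    rcases sg a g hg c hcs with h6 | h6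
    · exact Or.inl ⟨h6, h5⟩
    · exact Or.inr ⟨h6, h5⟩
  have k4 : η * X ≤ NP R a b g h X 1 (-1) + NP R a b g h X (-1) (-1) := by
    refine (mul_le_mul_of_nonneg_right le2 hX).trans (B2.trans ?_)
    refine cov _ 1 (-1) (-1) (-1) fun c hcs hP => ?_
    rw [prod_singleton] at hP
    have h5 : 0 < ((-1 * h c : ℤ) : ℝ) * Fre b c := by push_cast; linarith
    rcases sg a g hg c hcs with h6 | h6
    · exact Or.inl ⟨h6, h5⟩
    · exact Or.inr ⟨h6, h5⟩
  have pr : ∀ c : ℕ, (((g c * h c : ℤ)) : ℝ) * ∏ u ∈ ({a, b} : Finset ℤ), Fre u c =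
      (((g c : ℤ) : ℝ) * Fre a c) * (((h c : ℤ) : ℝ) * Fre b c) := by
    intro c
    rw [prod_pair hab]
    push_cast
    ring
  have k5 : η * X ≤ NP R a b g h X 1 1 + NP R a b g h X (-1) (-1) := by
    refine (mul_le_mul_of_nonneg_right le3 hX).trans (C1.trans ?_)
    refine cov _ 1 1 (-1) (-1) fun c hcs hP => ?_
    rw [pr] at hP
    rcases sg a g hg c hcs with h6 | h6 <;> rcases sg b h hh c hcs with h7 | h7
    · exact Or.inl ⟨h6, h7⟩
    · exfalso
      push_cast at h6 h7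
      nlinarith
    · exfalso
      push_cast at h6 h7
      nlinarith
    · exact Or.inr ⟨h6, h7⟩
  have k6 : η * X ≤ NP R a b g h X 1 (-1) + NP R a b g h X (-1) 1 := by
    refine (mul_le_mul_of_nonneg_right le3 hX).trans (C2.trans ?_)
    refine cov _ 1 (-1) (-1) 1 fun c hcs hP => ?_
    rw [pr] at hP
    rcases sg a g hg c hcs with h6 | h6 <;> rcases sg b h hh c hcs with h7 | h7
    · exfalso
      push_cast at h6 h7
      nlinarith
    · exact Or.inl ⟨h6, h7⟩
    · exact Or.inr ⟨h6, h7⟩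
    · exfalso
      push_cast at h6 h7
      nlinarith
  by_cases n1 : η / 2 * X ≤ NP R a b g h X 1 1
  · by_cases n2 : η / 2 * X ≤ NP R a b g h X 1 (-1)
    · by_cases n3 : η / 2 * X ≤ NP R a b g h X (-1) 1
      · refine ⟨-1, -1, ?_⟩
        rintro s t (rfl | rfl) (rfl | rfl) hst
        · exact n1
        · exact n2
        · exact n3
        · exact absurd rfl hst
      · refine ⟨-1, 1, ?_⟩
        push Not at n3
        rintro s t (rfl | rfl) (rfl | rfl) hst
        · exact n1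
        · exact n2
        · exact absurd rfl hst
        · linarith
    · refine ⟨1, -1, ?_⟩
      push Not at n2
      rintro s t (rfl | rfl) (rfl | rfl) hst
      · exact n1
      · exact absurd rfl hst
      · linarith
      · linarith
  · refine ⟨1, 1, ?_⟩
    push Not at n1
    rintro s t (rfl | rfl) (rfl | rfl) hst
    · exact absurd rfl hst
    · linarith
    · linarith
    · linarith

end PA15
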