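import Pool.Agent.LibPA15.G

/-!
# LibPA15/L: the local lemma for pairs with a prime as large as we like
-/

set_option autoImplicit false

namespace PA15

open Finset

theorem core2_neL (a b : ℤ) (ha : a ≠ 0) (hb : b ≠ 0) (hab : a ≠ b) (hab' : a ≠ -b) (L₀ : ℕ) :
    ∃ d : ℕ, L₀ < d ∧ Pair a b d := by
  set L : ℕ := (a.natAbs + b.natAbs) ^ 76 + 16 + L₀ with hL
  obtain ⟨d, hd, hLd, hdvd⟩ := exists_prime_sq a b ha hb L (by omega)
  have hfact : Fact d.Prime := ⟨hd⟩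
  have h1 : (1 : ZMod d) - (a : ZMod d) * b * ((L.factorial : ℕ) : ZMod d) ^ 2 = 0 := by
    have := (ZMod.intCast_zmod_eq_zero_iff_dvd _ d).2 hdvd
    push_cast at this
    exact this
  have hrel : (a : ZMod d) * b * ((L.factorial : ℕ) : ZMod d) ^ 2 = 1 := by
    linear_combination -h1
  have ha0 : (a : ZMod d) ≠ 0 := by
    intro h; rw [h] at hrel; simp at hrel
  have hb0 : (b : ZMod d) ≠ 0 := by
    intro h; rw [h] at hrel; simp at hrel
  have hl0 : ((L.factorial : ℕ) : ZMod d) ≠ 0 := by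
    intro h; rw [h] at hrel; simp at hrel
  set A : (ZMod d)ˣ := Units.mk0 _ ha0 with hA
  set Λ : (ZMod d)ˣ := Units.mk0 _ hl0 with hΛ
  set τ : (ZMod d)ˣ := (A * Λ)⁻¹ with hτ
  have hτval : (τ : ZMod d) = ((a : ZMod d) * ((L.factorial : ℕ) : ZMod d))⁻¹ := by
    rw [hτ, Units.val_inv_eq_inv_val, Units.val_mul]
    rfl
  have hbt : (b : ZMod d) = (a : ZMod d) * (τ : ZMod d) ^ 2 := by
    rw [hτval]
    field_simp
    linear_combination hrel
  refine ⟨d, by omega, hfact, by omega, ?_, ?_, ?_⟩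
  · intro h; exact ha0 ((ZMod.intCast_zmod_eq_zero_iff_dvd _ d).2 h)
  · intro h; exact hb0 ((ZMod.intCast_zmod_eq_zero_iff_dvd _ d).2 h)
  by_contra hcon
  push Not at hcon
  have hAv : (A : ZMod d) = (a : ZMod d) := rfl
  have hB : ∀ y : (ZMod d)ˣ, (b : ZMod d) * (y : ZMod d) ^ 2 =
      (A : ZMod d) * ((τ * y : (ZMod d)ˣ) : ZMod d) ^ 2 := by
    intro y
    rw [hAv, Units.val_mul, hbt]; ring
  have hall : ∀ y z : (ZMod d)ˣ, IsSquare (y * z) →
      0 < (Kr d ((A : ZMod d) * (y : ZMod d) ^ 2) * Kr d ((A : ZMod d) * ((τ * y : (ZMod d)ˣ) : ZMod d) ^ 2)) *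
        (Kr d ((A : ZMod d) * (z : ZMod d) ^ 2) * Kr d ((A : ZMod d) * ((τ * z : (ZMod d)ˣ) : ZMod d) ^ 2)) := by
    intro y z hyz
    have p1 := Kr_ne_zero ((A : ZMod d) * (y : ZMod d) ^ 2)
    have p2 := Kr_ne_zero ((A : ZMod d) * ((τ * y : (ZMod d)ˣ) : ZMod d) ^ 2)
    have p3 := Kr_ne_zero ((A : ZMod d) * (z : ZMod d) ^ 2)
    have p4 := Kr_ne_zero ((A : ZMod d) * ((τ * z : (ZMod d)ˣ) : ZMod d) ^ 2)
    by_cases hneg : y = -z
    · have e1 : (y : ZMod d) ^ 2 = (z : ZMod d) ^ 2 := by rw [hneg, Units.val_neg]; ring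
      have e2 : ((τ * y : (ZMod d)ˣ) : ZMod d) ^ 2 = ((τ * z : (ZMod d)ˣ) : ZMod d) ^ 2 := by
        rw [hneg, Units.val_mul, Units.val_mul, Units.val_neg]; ring
      rw [e1, e2]
      exact mul_self_pos.2 (mul_ne_zero p3 p4)
    · have h := hcon y z hyz hneg
      rw [hB y, hB z, ← hAv] at h
      exact lt_of_le_of_ne h (mul_ne_zero (mul_ne_zero p1 p2) (mul_ne_zero p3 p4)).symm
  refine few_shifts (by omega) A (τ ^ 4) (inv_four A τ hall) ?_
  have key : ∀ i < 20, ∀ j < 20, i < j → ((τ ^ 4) ^ 2) ^ i = ((τ ^ 4) ^ 2) ^ j → False := by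
    intro i hi j hj hij h
    obtain ⟨m, rfl⟩ := Nat.exists_eq_add_of_lt hij
    set m' := m + 1 with hm'
    have h3 : i + m + 1 = i + m' := by omega
    rw [h3, pow_add] at h
    have h4 : ((τ ^ 4) ^ 2) ^ m' = 1 := by
      have : ((τ ^ 4) ^ 2) ^ i * 1 = ((τ ^ 4) ^ 2) ^ i * ((τ ^ 4) ^ 2) ^ m' := by rw [mul_one]; exact h
      exact (mul_left_cancel this).symm
    have h5 : ((τ : ZMod d) ^ 2) ^ (4 * m') = 1 := by
      have := congrArg (fun u : (ZMod d)ˣ => (u : ZMod d)) h4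
      simp only [Units.val_pow_eq_pow_val, Units.val_one] at this
      rw [← this, ← pow_mul, ← pow_mul, ← pow_mul]
      congr 1
      ring
    have h6 : (b : ZMod d) ^ (4 * m') = (a : ZMod d) ^ (4 * m') := by
      rw [hbt, mul_pow, h5, mul_one]
    have h7 : (d : ℤ) ∣ b ^ (4 * m') - a ^ (4 * m') := by
      rw [← ZMod.intCast_zmod_eq_zero_iff_dvd]
      push_cast
      rw [h6, sub_self]
    have h8 := pow_ne_of a b hab hab' m' (by omega)
    have h9 := pow_lt_of a b hb m' (by omega)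
    have h10 : d ∣ (b ^ (4 * m') - a ^ (4 * m')).natAbs := Int.natCast_dvd.1 h7
    have h11 := Nat.le_of_dvd (Int.natAbs_pos.2 (sub_ne_zero.2 h8)) h10
    omega
  intro i hi j hj h
  rcases lt_trichotomy i j with hij | hij | hij
  · exact (key i hi j hj hij h).elim
  · exact hij
  · exact (key j hj i hi hij h.symm).elim

theorem core2_negL (a : ℤ) (ha : a ≠ 0) (L : ℕ) : ∃ d : ℕ, L < d ∧ Pair a (-a) d := by
  obtain ⟨d, hdgt, hdp, hdm⟩ := Nat.forall_exists_prime_gt_and_modEq (a.natAbs + 16 + L)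
    (show (4 : ℕ) ≠ 0 by norm_num) (show Nat.Coprime 3 4 by norm_num)
  have hfact : Fact d.Prime := ⟨hdp⟩
  have h3 : d % 4 = 3 := hdm
  have hda : ¬ (d : ℤ) ∣ a := by
    intro h
    have := Nat.le_of_dvd (Int.natAbs_pos.2 ha) (Int.natCast_dvd.1 h)
    omega
  have ha0 : (a : ZMod d) ≠ 0 := by
    rw [Ne, ZMod.intCast_zmod_eq_zero_iff_dvd]; exact hda
  refine ⟨d, by omega, hfact, by omega, hda, fun h => hda (by rwa [dvd_neg] at h), ?_⟩
  obtain ⟨s, t, hst⟩ := exists_signs h3 (by omega) (a : ZMod d) ha0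
  -- values at `± y²`
  have key : ∀ t : (ZMod d)ˣ, ∃ y : (ZMod d)ˣ, Kr d ((a : ZMod d) * t) * Kr d (-(a : ZMod d) * t) =
      Kr d ((a : ZMod d) * (y : ZMod d) ^ 2) * Kr d (((-a : ℤ) : ZMod d) * (y : ZMod d) ^ 2) := by
    intro t
    obtain ⟨y, h | h⟩ := sq_or h3 t
    · refine ⟨y, ?_⟩
      rw [h, Units.val_pow_eq_pow_val, Int.cast_neg]
    · refine ⟨y, ?_⟩
      rw [h, Units.val_neg, Units.val_pow_eq_pow_val, Int.cast_neg, mul_comm (Kr d _) (Kr d _),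
        mul_neg, neg_mul, neg_neg, mul_neg]
  obtain ⟨y, hy⟩ := key s
  obtain ⟨z, hz⟩ := key t
  rw [hy, hz] at hst
  have hne : ∀ w : (ZMod d)ˣ, (w : ZMod d) ^ 2 = (y : ZMod d) ^ 2 → ¬ (Kr d ((a : ZMod d) * (y : ZMod d) ^ 2) *
      Kr d (((-a : ℤ) : ZMod d) * (y : ZMod d) ^ 2) * (Kr d ((a : ZMod d) * (w : ZMod d) ^ 2) *
      Kr d (((-a : ℤ) : ZMod d) * (w : ZMod d) ^ 2)) < 0) := by
    intro w hw h
    rw [hw] at h
    exact absurd h (not_lt.2 (mul_self_nonneg _))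
  rcases sq_or_neg h3 (y * z) with hsq | hsq
  · refine ⟨y, z, hsq, ?_, hst⟩
    rintro rfl
    refine hne z ?_ hst
    rw [Units.val_neg]; ring
  · refine ⟨y, -z, ?_, ?_, ?_⟩
    · rw [mul_neg]; exact hsq
    · rw [neg_neg]
      rintro rfl
      exact hne y rfl hst
    · have e : ((-z : (ZMod d)ˣ) : ZMod d) ^ 2 = (z : ZMod d) ^ 2 := by rw [Units.val_neg]; ring
      rw [e]
      exact hst

/-- **The local lemma for pairs.** -/
theorem core2L (a b : ℤ) (ha : a ≠ 0) (hb : b ≠ 0) (hab : a ≠ b) (L : ℕ) :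
    ∃ d : ℕ, L < d ∧ Pair a b d := by
  by_cases h : a = -b
  · have h' : b = -a := by rw [h, neg_neg]
    rw [h']
    exact core2_negL a ha L
  · exact core2_neL a b ha hb hab h L

end PA15
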