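import Pool.Agent.LibPA15.J
import Pool.Agent.LibPA25.W3
import Pool.Agent.LibPA25.V3

/-!
# LibPA15/K: the two-sided theorems for `{a}`, `{b}`, `{a, b}` on the same set of moduli
-/

set_option autoImplicit false

namespace PA15

open Finset Filter Topology SP15 PA25

/-- a residue prime to a multiple of the modulus -/
lemma exists_res (q m r : ℕ) (hq : 0 < q) (hm : 0 < m) (hr : r.Coprime q) :
    ∃ r' : ℕ, r'.Coprime (q * m) ∧ r' ≡ r [MOD q] := by
  have hqm : NeZero (q * m) := ⟨Nat.mul_ne_zero hq.ne' hm.ne'⟩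
  have hq' : NeZero q := ⟨hq.ne'⟩
  obtain ⟨u, hu⟩ := ZMod.unitsMap_surjective (dvd_mul_right q m) (ZMod.unitOfCoprime r hr)
  refine ⟨(u : ZMod (q * m)).val, ZMod.val_coe_unit_coprime u, ?_⟩
  rw [← ZMod.natCast_eq_natCast_iff]
  have h1 := congrArg (fun v : (ZMod q)ˣ => (v : ZMod q)) hu
  simp only [ZMod.unitsMap_val, ZMod.coe_unitOfCoprime] at h1
  rw [← h1, ← ZMod.natCast_val]

/-- the moduli -/
def RR (a b : ℤ) (q r : ℕ) (c : ℕ) : Prop :=
  c ≡ r [MOD q] ∧ Squarefree c ∧ Odd c ∧ Int.gcd (a * b) c = 1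

lemma both_one (a b : ℤ) (ha : a ≠ 0) (hb : b ≠ 0) (q r : ℕ) (hq : 0 < q) (hr : r.Coprime q) :
    Both (RR a b q r) {a} := by
  classical
  have hb' : 0 < b.natAbs := Int.natAbs_pos.2 hb
  obtain ⟨r', hr', hrr⟩ := exists_res q b.natAbs r hq hb' hr
  obtain ⟨η, hη, h⟩ := W3_one a ha (q * b.natAbs) r' (Nat.mul_pos hq hb') hr'
  refine ⟨η, hη, ?_⟩
  filter_upwards [h] with X hX g hg
  obtain ⟨h1, h2⟩ := hX (fun n => (g n : ℝ)) (fun n => by
    rcases hg.1 n with h | h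
    · left; show ((g n : ℤ) : ℝ) = 1; rw [h]; norm_num
    · right; show ((g n : ℤ) : ℝ) = -1; rw [h]; norm_num) (fun m n hmn => by
    show ((g (m * n) : ℤ) : ℝ) = (g m : ℝ) * (g n : ℝ)
    rw [hg.2 m n hmn]; push_cast; ring)
  have key : ∀ c : ℕ, c ≡ r' [MOD q * b.natAbs] → Squarefree c → Odd c → Int.gcd a c = 1 →
      RR a b q r c := by
    intro c e1 e2 e3 e4
    refine ⟨(e1.of_dvd (dvd_mul_right q b.natAbs)).trans hrr, e2, e3, ?_⟩
    have e5 : c.Coprime b.natAbs := by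
      have e6 : c.gcd b.natAbs = r'.gcd b.natAbs := (e1.of_dvd (dvd_mul_left b.natAbs q)).gcd_eq
      have e7 : r'.Coprime b.natAbs := Nat.Coprime.coprime_mul_left_right hr'
      rw [Nat.Coprime, e6]; exact e7
    have e8 : (a.natAbs).Coprime c := by
      rw [Int.gcd, Int.natAbs_natCast] at e4; exact e4
    rw [Int.gcd, Int.natAbs_natCast, Int.natAbs_mul]
    exact Nat.Coprime.mul_left e8 e5.symm
  constructor
  · refine h1.trans ?_
    exact_mod_cast card_le_card fun c hc => by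
      rw [mem_filter] at hc ⊢
      obtain ⟨m1, m2, m3, m4, m5, m6⟩ := hc
      exact ⟨m1, key c m2 m3 m4 m5, by rw [prod_singleton]; exact m6⟩
  · refine h2.trans ?_
    exact_mod_cast card_le_card fun c hc => by
      rw [mem_filter] at hc ⊢
      obtain ⟨m1, m2, m3, m4, m5, m6⟩ := hc
      exact ⟨m1, key c m2 m3 m4 m5, by rw [prod_singleton]; exact m6⟩

lemma both_one' (a b : ℤ) (ha : a ≠ 0) (hb : b ≠ 0) (q r : ℕ) (hq : 0 < q) (hr : r.Coprime q) :
    Both (RR a b q r) {b} := by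
  have h := both_one b a hb ha q r hq hr
  have e : RR b a q r = RR a b q r := by
    funext c
    unfold RR
    rw [mul_comm b a]
  rwa [e] at h

lemma both_two (a b : ℤ) (ha : a ≠ 0) (hb : b ≠ 0) (hab : a ≠ b) (q r : ℕ) (hq : 0 < q) (hr : r.Coprime q) :
    Both (RR a b q r) {a, b} := by
  classical
  obtain ⟨l, hlq, hl⟩ := V2_loc' a b ha hb hab q
  have hnd : ¬ l ∣ q := fun h => by
    have := Nat.le_of_dvd hq h
    omega
  obtain ⟨η, hη, h⟩ := W3_main {a, b} (by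
    intro h hh
    rcases mem_insert.1 hh with rfl | hh
    · exact ha
    · rw [mem_singleton.1 hh]; exact hb) l hl q r hq hnd hr
  refine ⟨η, hη, ?_⟩
  filter_upwards [h] with X hX g hg
  obtain ⟨h1, h2⟩ := hX (fun n => (g n : ℝ)) (fun n => by
    rcases hg.1 n with h | h
    · left; show ((g n : ℤ) : ℝ) = 1; rw [h]; norm_num
    · right; show ((g n : ℤ) : ℝ) = -1; rw [h]; norm_num) (fun m n hmn => by
    show ((g (m * n) : ℤ) : ℝ) = (g m : ℝ) * (g n : ℝ)
    rw [hg.2 m n hmn]; push_cast; ring)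
  have key : ∀ c : ℕ, c ≡ r [MOD q] → Squarefree c → Odd c →
      (∀ h ∈ ({a, b} : Finset ℤ), Int.gcd h c = 1) → RR a b q r c := by
    intro c e1 e2 e3 e4
    refine ⟨e1, e2, e3, ?_⟩
    have e5 := e4 a (mem_insert_self _ _)
    have e6 := e4 b (mem_insert_of_mem (mem_singleton_self _))
    rw [Int.gcd, Int.natAbs_natCast] at e5 e6 ⊢
    rw [Int.natAbs_mul]
    exact Nat.Coprime.mul_left e5 e6
  constructor
  · refine h1.trans ?_
    exact_mod_cast card_le_card fun c hc => by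
      rw [mem_filter] at hc ⊢
      obtain ⟨m1, m2, m3, m4, m5, m6⟩ := hc
      exact ⟨m1, key c m2 m3 m4 m5, m6⟩
  · refine h2.trans ?_
    exact_mod_cast card_le_card fun c hc => by
      rw [mem_filter] at hc ⊢
      obtain ⟨m1, m2, m3, m4, m5, m6⟩ := hc
      exact ⟨m1, key c m2 m3 m4 m5, m6⟩

/-- three of the four patterns, in terms of `Fre` -/
theorem K_main (a b : ℤ) (ha : a ≠ 0) (hb : b ≠ 0) (hab : a ≠ b) (q r : ℕ) (hq : 0 < q) (hr : r.Coprime q) :
    ∃ δ : ℝ, 0 < δ ∧ ∀ᶠ X : ℕ in atTop, ∀ g h : ℕ → ℤ, Mult g → Mult h → ∃ s₀ t₀ : ℤ,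
      ∀ s t : ℤ, (s = 1 ∨ s = -1) → (t = 1 ∨ t = -1) → (s, t) ≠ (s₀, t₀) →
        δ * X ≤ NP (RR a b q r) a b g h X s t :=
  three_of_four (RR a b q r) a b hab (fun h c hc => K1_ne h c hc.2.1) (both_one a b ha hb q r hq hr)
    (both_one' a b ha hb q r hq hr) (both_two a b ha hb hab q r hq hr)

end PA15
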